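import Mathlib
import Pool.Agent.R239.NilRet.Basic

/-!
The Heisenberg nilmanifold `Γ \ G`, right translations, nilflows and the invariant measure.
-/

open Set Topology Filter MeasureTheory
open Pool.Agent.R239.NilRet
open Pool.Agent.R239.NilRet.Heis

namespace Pool.Agent.U610.Nil

instance : MeasurableSpace Heis := inferInstanceAs (MeasurableSpace (ℝ × ℝ × ℝ))
instance : BorelSpace Heis := inferInstanceAs (BorelSpace (ℝ × ℝ × ℝ))
noncomputable instance : MeasureSpace Heis := inferInstanceAs (MeasureSpace (ℝ × ℝ × ℝ))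
instance : SecondCountableTopology Heis := inferInstanceAs (SecondCountableTopology (ℝ × ℝ × ℝ))
instance : T2Space Heis := inferInstanceAs (T2Space (ℝ × ℝ × ℝ))
instance : LocallyCompactSpace Heis := inferInstanceAs (LocallyCompactSpace (ℝ × ℝ × ℝ))
instance : SigmaFinite (volume : Measure Heis) :=
  inferInstanceAs (SigmaFinite (volume : Measure (ℝ × ℝ × ℝ)))

/-- The Heisenberg nilmanifold `M = Γ \ G`: the space of the cosets `Γ g` of the integer lattice
`Γ = Gam2` of the Heisenberg group, with the quotient topology. -/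
abbrev NilM : Type := Quotient (QuotientGroup.rightRel Gam2)

/-- The projection `g ↦ Γ g`. -/
def pr (g : Heis) : NilM := Quotient.mk _ g

lemma pr_eq {g h : Heis} : pr g = pr h ↔ ∃ γ ∈ Gam2, γ * g = h := by
  unfold pr
  rw [Quotient.eq, QuotientGroup.rightRel_apply]
  constructor
  · intro hh
    exact ⟨_, hh, by group⟩
  · rintro ⟨γ, hγ, rfl⟩
    simpa using hγ

lemma pr_mul {γ : Heis} (hγ : γ ∈ Gam2) (g : Heis) : pr (γ * g) = pr g :=
  (pr_eq.2 ⟨γ, hγ, rfl⟩).symm

lemma pr_surjective : Function.Surjective pr := Quotient.mk_surjective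

lemma continuous_pr : Continuous pr := continuous_quotient_mk'

lemma isOpenMap_pr : IsOpenMap pr := by
  intro V hV
  have : IsOpen (pr ⁻¹' (pr '' V)) := by
    have e : pr ⁻¹' (pr '' V) = ⋃ γ : Gam2, (fun g => (γ : Heis) * g) ⁻¹' V := by
      ext g
      simp only [mem_preimage, mem_image, mem_iUnion]
      constructor
      · rintro ⟨v, hv, h⟩
        obtain ⟨γ, hγ, h2⟩ := pr_eq.1 h.symm
        exact ⟨⟨γ, hγ⟩, by simpa [h2] using hv⟩
      · rintro ⟨γ, h⟩
        exact ⟨_, h, pr_mul γ.2 g⟩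
    rw [e]
    exact isOpen_iUnion fun γ => hV.preimage (continuous_const.mul continuous_id)
  exact this

lemma isOpenQuotientMap_pr : IsOpenQuotientMap pr := ⟨pr_surjective, continuous_pr, isOpenMap_pr⟩

instance : SecondCountableTopology NilM :=
  isOpenQuotientMap_pr.isQuotientMap.secondCountableTopology isOpenMap_pr

/-- Every point can be moved into the box `[0,1)^3` by the lattice, uniquely. -/
lemma exists_reduce (g : Heis) : ∃! γ : Gam2, (γ • g).x ∈ Ico (0 : ℝ) 1 ∧
    (γ • g).y ∈ Ico (0 : ℝ) 1 ∧ (γ • g).z ∈ Ico (0 : ℝ) 1 := by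
  have key : ∀ (t : ℝ) (n m : ℤ), n + t ∈ Ico (0 : ℝ) 1 → m + t ∈ Ico (0 : ℝ) 1 → n = m := by
    intro t n m h1 h2
    have h3 : (n : ℝ) - m < 1 := by linarith [h1.2, h2.1]
    have h4 : (m : ℝ) - n < 1 := by linarith [h2.2, h1.1]
    have h5 : n - m < 1 := by exact_mod_cast h3
    have h6 : m - n < 1 := by exact_mod_cast h4
    omega
  have key2 : ∀ t : ℝ, ((-⌊t⌋ : ℤ) : ℝ) + t ∈ Ico (0 : ℝ) 1 := by
    intro t
    have h1 := Int.floor_le t
    have h2 := Int.lt_floor_add_one t
    push_cast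
    constructor <;> linarith
  refine ⟨⟨Heis.mk ((-⌊g.x⌋ : ℤ) : ℝ) ((-⌊g.y⌋ : ℤ) : ℝ)
    ((-⌊g.z + ((-⌊g.x⌋ : ℤ) : ℝ) * g.y⌋ : ℤ) : ℝ), mk_mem_Gam2 _ _ _⟩, ⟨?_, ?_, ?_⟩, ?_⟩
  · exact key2 g.x
  · exact key2 g.y
  · have := key2 (g.z + ((-⌊g.x⌋ : ℤ) : ℝ) * g.y)
    simp only [Subgroup.smul_def, smul_eq_mul, mul_z, z_mk, x_mk]
    rwa [add_assoc]
  · rintro ⟨γ, ⟨p, hp⟩, ⟨q, hq⟩, ⟨r, hr⟩⟩ ⟨h1, h2, h3⟩
    simp only [Subgroup.smul_def, smul_eq_mul, mul_x, mul_y, mul_z] at h1 h2 h3
    rw [hp] at h1 h3; rw [hq] at h2; rw [hr] at h3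
    have e1 := key _ _ _ h1 (key2 g.x)
    have e2 := key _ _ _ h2 (key2 g.y)
    subst e1
    have e3 := key (g.z + ((-⌊g.x⌋ : ℤ) : ℝ) * g.y) r _ (by rwa [← add_assoc])
      (key2 (g.z + ((-⌊g.x⌋ : ℤ) : ℝ) * g.y))
    apply Subtype.ext
    apply Heis.ext
    · exact hp
    · rw [y_mk, hq, e2]
    · rw [z_mk, hr, e3]

instance : Countable Gam2 := by
  have : Function.Injective (fun γ : Gam2 => (⌊γ.1.x⌋, ⌊γ.1.y⌋, ⌊γ.1.z⌋)) := by
    rintro ⟨γ, ⟨p, hp⟩, ⟨q, hq⟩, ⟨r, hr⟩⟩ ⟨γ', ⟨p', hp'⟩, ⟨q', hq'⟩, ⟨r', hr'⟩⟩ h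
    simp only [hp, hq, hr, hp', hq', hr', Int.floor_intCast, Prod.mk.injEq] at h
    obtain ⟨rfl, rfl, rfl⟩ := h
    apply Subtype.ext
    apply Heis.ext
    · rw [hp, hp']
    · rw [hq, hq']
    · rw [hr, hr']
  exact this.countable

instance : ProperlyDiscontinuousSMul Gam2 Heis :=
  Subgroup.properlyDiscontinuousSMul_of_tendsto_cofinite _
    (Subgroup.tendsto_coe_cofinite_of_discrete Gam2 ⟨(inferInstance : DiscreteTopology Gam2)⟩)

instance : T2Space NilM := by
  have : T2Space (Quotient (MulAction.orbitRel Gam2 Heis)) := inferInstance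
  exact this

instance : CompactSpace NilM := by
  have hc := (isCompact_box 0 1 0 1 0 1).image continuous_pr
  refine ⟨?_⟩
  convert hc
  symm
  rw [eq_univ_iff_forall]
  intro q
  obtain ⟨g, rfl⟩ := pr_surjective q
  obtain ⟨γ, ⟨h1, h2, h3⟩, -⟩ := exists_reduce g
  exact ⟨_, ⟨Ico_subset_Icc_self h1, Ico_subset_Icc_self h2, Ico_subset_Icc_self h3⟩,
    pr_mul γ.2 g⟩

instance : BorelSpace NilM := ⟨by
  have := Continuous.map_eq_borel continuous_pr pr_surjective
  rw [← this]
  rfl⟩

lemma measurable_pr : Measurable pr := continuous_pr.measurable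

/-- The right translation `Γ g ↦ Γ g h`. -/
def rmul (h : Heis) : NilM → NilM :=
  Quotient.map (fun g => g * h) (fun g g' hg => by
    have h1 : pr g = pr g' := Quotient.sound hg
    obtain ⟨γ, hγ, h2⟩ := pr_eq.1 h1
    apply Quotient.exact
    show pr (g * h) = pr (g' * h)
    exact pr_eq.2 ⟨γ, hγ, by rw [← h2, mul_assoc]⟩)

@[simp] lemma rmul_pr (h g : Heis) : rmul h (pr g) = pr (g * h) := rfl

lemma rmul_rmul (h k : Heis) (x : NilM) : rmul h (rmul k x) = rmul (k * h) x := by
  obtain ⟨g, rfl⟩ := pr_surjective x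
  simp [mul_assoc]

@[simp] lemma rmul_one (x : NilM) : rmul 1 x = x := by
  obtain ⟨g, rfl⟩ := pr_surjective x
  simp

lemma continuous_rmul_joint : Continuous (fun p : Heis × NilM => rmul p.1 p.2) := by
  have hq : IsOpenQuotientMap (Prod.map (id : Heis → Heis) pr) :=
    IsOpenQuotientMap.id.prodMap isOpenQuotientMap_pr
  have : ((fun p : Heis × NilM => rmul p.1 p.2) ∘ Prod.map id pr) =
      fun p : Heis × Heis => pr (p.2 * p.1) := by
    ext p; rfl
  rw [hq.isQuotientMap.continuous_iff, this]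
  exact continuous_pr.comp (continuous_snd.mul continuous_fst)

lemma continuous_rmul (h : Heis) : Continuous (rmul h) :=
  continuous_rmul_joint.comp (continuous_const.prodMk continuous_id)

/-- The box `[0,1)^3`, a fundamental domain. -/
def box : Set Heis := {g | g.x ∈ Ico (0 : ℝ) 1 ∧ g.y ∈ Ico (0 : ℝ) 1 ∧ g.z ∈ Ico (0 : ℝ) 1}

lemma box_eq : box = (Ico (0 : ℝ) 1 ×ˢ (Ico (0 : ℝ) 1 ×ˢ Ico (0 : ℝ) 1) : Set (ℝ × ℝ × ℝ)) := by
  ext g
  rfl

lemma measurableSet_box : MeasurableSet box := by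
  rw [box_eq]
  exact measurableSet_Ico.prod (measurableSet_Ico.prod measurableSet_Ico)

lemma volume_box : volume box = 1 := by
  have : (volume : Measure (ℝ × ℝ × ℝ)) (Ico (0 : ℝ) 1 ×ˢ (Ico (0 : ℝ) 1 ×ˢ Ico (0 : ℝ) 1)) = 1 := by
    rw [Measure.volume_eq_prod, Measure.prod_prod, Measure.volume_eq_prod, Measure.prod_prod]
    simp
  exact this

/-- shears preserve Lebesgue measure -/
lemma mp_shear (a b c d e : ℝ) : MeasurePreserving
    (fun g : ℝ × ℝ × ℝ => (g.1 + a, g.2.1 + b, g.2.2 + (c + d * g.1 + e * g.2.1)))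
    (volume : Measure (ℝ × ℝ × ℝ)) volume := by
  have h1 : ∀ x : ℝ, MeasurePreserving (fun p : ℝ × ℝ => (p.1 + b, p.2 + (c + d * x + e * p.1)))
      (volume : Measure (ℝ × ℝ)) volume := by
    intro x
    refine MeasurePreserving.skew_product (g := fun (s t : ℝ) => t + (c + d * x + e * s))
      (measurePreserving_add_right volume b) (by fun_prop) ?_
    exact Filter.Eventually.of_forall fun s =>
      (measurePreserving_add_right (volume : Measure ℝ) (c + d * x + e * s)).map_eq
  refine MeasurePreserving.skew_product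
    (g := fun (x : ℝ) (p : ℝ × ℝ) => (p.1 + b, p.2 + (c + d * x + e * p.1)))
    (measurePreserving_add_right volume a) (by fun_prop) ?_
  exact Filter.Eventually.of_forall fun x => (h1 x).map_eq

lemma mp_mul_right (h : Heis) : MeasurePreserving (fun g : Heis => g * h) volume volume := by
  have h1 := mp_shear h.x h.y h.z h.y 0
  have e : (fun g : Heis => g * h) =
      fun g : Heis => Heis.mk (g.x + h.x) (g.y + h.y) (g.z + (h.z + h.y * g.x + 0 * g.y)) := by
    funext g
    apply Heis.ext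
    · rfl
    · rfl
    · show g.z + h.z + g.x * h.y = g.z + (h.z + h.y * g.x + 0 * g.y)
      ring
  rw [e]
  exact h1

lemma mp_mul_left (h : Heis) : MeasurePreserving (fun g : Heis => h * g) volume volume := by
  have h1 := mp_shear h.x h.y h.z 0 h.x
  have e : (fun g : Heis => h * g) =
      fun g : Heis => Heis.mk (g.x + h.x) (g.y + h.y) (g.z + (h.z + 0 * g.x + h.x * g.y)) := by
    funext g
    apply Heis.ext
    · exact add_comm _ _
    · exact add_comm _ _
    · show h.z + g.z + h.x * g.y = g.z + (h.z + 0 * g.x + h.x * g.y)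
      ring
  rw [e]
  exact h1

instance : SMulInvariantMeasure Gam2 Heis volume :=
  ⟨fun γ _ hs => (mp_mul_left γ.1).measure_preimage hs.nullMeasurableSet⟩

instance : MeasurableConstSMul Gam2 Heis :=
  ⟨fun γ => (mp_mul_left γ.1).measurable⟩

lemma fund_box : IsFundamentalDomain Gam2 box (volume : Measure Heis) :=
  IsFundamentalDomain.mk' measurableSet_box.nullMeasurableSet exists_reduce

lemma fund_box_mul (h : Heis) :
    IsFundamentalDomain Gam2 ((fun g : Heis => g * h) ⁻¹' box) (volume : Measure Heis) := by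
  refine IsFundamentalDomain.mk' ((mp_mul_right h).measurable measurableSet_box).nullMeasurableSet ?_
  intro g
  obtain ⟨γ, h1, h2⟩ := exists_reduce (g * h)
  have e : ∀ γ : Gam2, (γ • g) * h = γ • (g * h) := fun γ => mul_assoc _ _ _
  refine ⟨γ, ?_, fun γ' h3 => h2 γ' ?_⟩
  · show (γ • g) * h ∈ box
    rw [e]
    exact h1
  · have h4 : (γ' • g) * h ∈ box := h3
    rw [e] at h4
    exact h4

/-- The normalised Haar measure of the nilmanifold. -/
noncomputable def haar : Measure NilM := Measure.map pr (volume.restrict box)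

instance : IsProbabilityMeasure haar := by
  constructor
  rw [haar, Measure.map_apply measurable_pr MeasurableSet.univ, preimage_univ,
    Measure.restrict_apply_univ, volume_box]

lemma mp_rmul (h : Heis) : MeasurePreserving (rmul h) haar haar := by
  refine ⟨(continuous_rmul h).measurable, ?_⟩
  ext A hA
  rw [Measure.map_apply (continuous_rmul h).measurable hA, haar,
    Measure.map_apply measurable_pr ((continuous_rmul h).measurable hA),
    Measure.map_apply measurable_pr hA, Measure.restrict_apply (measurable_pr ((continuous_rmul h).measurable hA)),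
    Measure.restrict_apply (measurable_pr hA)]
  have hA' : MeasurableSet (pr ⁻¹' A) := measurable_pr hA
  have hinv : ∀ γ : Gam2, (fun g : Heis => γ • g) ⁻¹' (pr ⁻¹' A) = pr ⁻¹' A := by
    intro γ
    ext g
    simp only [mem_preimage]
    have : pr (γ • g) = pr g := pr_mul γ.2 g
    rw [this]
  have h1 := fund_box.measure_set_eq (fund_box_mul h⁻¹) hA' hinv
  rw [h1]
  rw [← (mp_mul_right h).measure_preimage (hA'.inter ((mp_mul_right h⁻¹).measurable measurableSet_box)).nullMeasurableSet]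
  congr 1
  ext g
  simp only [mem_inter_iff, mem_preimage, rmul_pr, mul_inv_cancel_right]

end Pool.Agent.U610.Nil
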