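import Mathlib

/-!
Smooth periodic functions which are nearly the indicator function of a half period, and the choice
of the frequencies for a Liouville number.
-/

open Set Topology Filter MeasureTheory
open scoped ContDiff

namespace Pool.Agent.U610.Nil

/-- A smooth function of period one, equal to `1` where `sin (2 π v) ≥ 2 ^ (-n-1)` and to `0` where
`sin (2 π v) ≤ - 2 ^ (-n-1)`. -/
noncomputable def U (n : ℕ) (v : ℝ) : ℝ :=
  Real.smoothTransition (1 / 2 + 2 ^ n * Real.sin (2 * Real.pi * v))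

lemma U_nonneg (n : ℕ) (v : ℝ) : 0 ≤ U n v := Real.smoothTransition.nonneg _
lemma U_le_one (n : ℕ) (v : ℝ) : U n v ≤ 1 := Real.smoothTransition.le_one _

lemma U_one {n : ℕ} {v : ℝ} (h : 1 / 2 ≤ 2 ^ n * Real.sin (2 * Real.pi * v)) : U n v = 1 :=
  Real.smoothTransition.one_of_one_le (by linarith)

lemma U_zero {n : ℕ} {v : ℝ} (h : 2 ^ n * Real.sin (2 * Real.pi * v) ≤ -(1 / 2)) : U n v = 0 :=
  Real.smoothTransition.zero_of_nonpos (by linarith)

lemma U_int {n : ℕ} {v : ℝ} (h : 1 / 2 ≤ 2 ^ n * |Real.sin (2 * Real.pi * v)|) :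
    U n v = 0 ∨ U n v = 1 := by
  rcases le_total 0 (Real.sin (2 * Real.pi * v)) with h1 | h1
  · right
    rw [abs_of_nonneg h1] at h
    exact U_one h
  · left
    rw [abs_of_nonpos h1] at h
    exact U_zero (by linarith)

lemma U_contDiff (n : ℕ) : ContDiff ℝ ∞ (U n) := by
  unfold U
  exact Real.smoothTransition.contDiff.comp (by fun_prop)

lemma U_periodic (n : ℕ) : Function.Periodic (U n) 1 := by
  intro v
  unfold U
  rw [mul_add, mul_one, Real.sin_add_two_pi]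

/-- the derivative of `U n` -/
noncomputable def V (n : ℕ) : ℝ → ℝ := deriv (U n)

lemma V_contDiff (n : ℕ) : ContDiff ℝ ∞ (V n) := by
  have h := U_contDiff n
  exact (contDiff_infty_iff_deriv.1 h).2

lemma V_periodic (n : ℕ) : Function.Periodic (V n) 1 := by
  intro v
  unfold V
  have : U n = fun v => U n (v + 1) := by
    funext v; exact (U_periodic n v).symm
  conv_rhs => rw [this]
  rw [deriv_comp_add_const]

lemma U_hasDerivAt (n : ℕ) (v : ℝ) : HasDerivAt (U n) (V n v) v :=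
  ((U_contDiff n).differentiable (by simp)).differentiableAt.hasDerivAt

lemma bound_exists (n : ℕ) : ∃ B : ℝ, 1 ≤ B ∧ ∀ k ≤ n, ∀ v, ‖iteratedFDeriv ℝ k (V n) v‖ ≤ B := by
  have h1 : ∀ k : ℕ, ∃ B : ℝ, ∀ v, ‖iteratedFDeriv ℝ k (V n) v‖ ≤ B := by
    intro k
    have hc : Continuous (iteratedFDeriv ℝ k (V n)) :=
      (V_contDiff n).continuous_iteratedFDeriv (by exact_mod_cast le_top)
    obtain ⟨B, hB⟩ := (isCompact_Icc (a := (0 : ℝ)) (b := 1)).exists_bound_of_continuousOn hc.continuousOn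
    refine ⟨B, fun v => ?_⟩
    have hp : Function.Periodic (iteratedFDeriv ℝ k (V n)) 1 := by
      intro x
      rw [← iteratedFDeriv_comp_add_right k 1 x]
      congr 1
      funext z
      exact V_periodic n z
    obtain ⟨w, hw, hw2⟩ := hp.exists_mem_Ico₀ one_pos v
    rw [hw2]
    exact hB w (Ico_subset_Icc_self hw)
  choose B hB using h1
  refine ⟨1 + ∑ k ∈ Finset.range (n + 1), |B k|, ?_, fun k hk v => ?_⟩
  · have : 0 ≤ ∑ k ∈ Finset.range (n + 1), |B k| := Finset.sum_nonneg fun _ _ => abs_nonneg _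
    linarith
  · refine (hB k v).trans ((le_abs_self _).trans ?_)
    have := Finset.single_le_sum (f := fun k => |B k|) (fun i _ => abs_nonneg (B i))
      (Finset.mem_range.2 (Nat.lt_succ_of_le hk))
    linarith

/-- a bound for the derivatives of `V n` of order at most `n` -/
noncomputable def Bd (n : ℕ) : ℝ := (bound_exists n).choose

lemma one_le_Bd (n : ℕ) : 1 ≤ Bd n := (bound_exists n).choose_spec.1

lemma Bd_spec (n : ℕ) {k : ℕ} (hk : k ≤ n) (v : ℝ) : ‖iteratedFDeriv ℝ k (V n) v‖ ≤ Bd n :=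
  (bound_exists n).choose_spec.2 k hk v

lemma V_bound (n : ℕ) (v : ℝ) : |V n v| ≤ Bd n := by
  have := Bd_spec n (Nat.zero_le n) v
  rwa [norm_iteratedFDeriv_zero, Real.norm_eq_abs] at this

lemma liou {β : ℝ} (hβ : Liouville β) (n : ℕ) {ε : ℝ} (hε : 0 < ε) :
    ∃ p q : ℤ, q ≠ 0 ∧ 0 < |q * β - p| ∧ |q * β - p| * (1 + |(p : ℝ)| + |(q : ℝ)|) ^ n ≤ ε := by
  set K : ℝ := |β| + 3 with hK
  have hK0 : 0 < K := by positivity
  obtain ⟨m, hm⟩ := exists_pow_lt_of_lt_one (show 0 < ε / K ^ n by positivity)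
    (show (1 / 2 : ℝ) < 1 by norm_num)
  obtain ⟨a, b, hb, hne, hlt⟩ := hβ (m + n + 1)
  have hb0 : (0 : ℝ) < b := by exact_mod_cast (by omega : (0 : ℤ) < b)
  have hb2 : (2 : ℝ) ≤ b := by exact_mod_cast (by omega : (2 : ℤ) ≤ b)
  have e : (b : ℝ) * β - a = b * (β - a / b) := by field_simp
  have h1 : |(b : ℝ) * β - a| < 1 / (b : ℝ) ^ (m + n) := by
    rw [e, abs_mul, abs_of_pos hb0]
    calc (b : ℝ) * |β - a / b| < b * (1 / (b : ℝ) ^ (m + n + 1)) := by gcongr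
      _ = 1 / (b : ℝ) ^ (m + n) := by rw [pow_succ]; field_simp
  have hδ1 : |(b : ℝ) * β - a| ≤ 1 := by
    refine h1.le.trans ?_
    rw [div_le_one (by positivity)]
    exact one_le_pow₀ (by linarith)
  have ha : |(a : ℝ)| ≤ b * |β| + 1 := by
    have : (a : ℝ) = b * β - (b * β - a) := by ring
    rw [this]
    refine (abs_sub _ _).trans ?_
    rw [abs_mul, abs_of_pos hb0]
    linarith
  have h2 : 1 + |(a : ℝ)| + |(b : ℝ)| ≤ b * K := by
    rw [abs_of_pos hb0, hK]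
    nlinarith
  refine ⟨a, b, by omega, ?_, ?_⟩
  · rw [abs_pos, e]
    exact mul_ne_zero hb0.ne' (sub_ne_zero.2 hne)
  · calc |(b : ℝ) * β - a| * (1 + |(a : ℝ)| + |(b : ℝ)|) ^ n
        ≤ 1 / (b : ℝ) ^ (m + n) * (b * K) ^ n := by gcongr
      _ = (1 / b) ^ m * K ^ n := by rw [pow_add, mul_pow, div_pow, one_pow]; field_simp
      _ ≤ (1 / 2) ^ m * K ^ n := by gcongr
      _ ≤ ε := by
        have := hm.le
        rw [le_div_iff₀ (by positivity)] at this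
        exact this

/-- The frequencies. -/
structure Freq (β : ℝ) where
  p : ℕ → ℤ
  q : ℕ → ℤ
  hq : ∀ n, q n ≠ 0
  hpos : ∀ n, 0 < |q n * β - p n|
  small : ∀ n, |q n * β - p n| * (1 + |(p n : ℝ)| + |(q n : ℝ)|) ^ n * (4 ^ n * Bd n) ≤ (1 / 2) ^ (n + 2)
  decr : ∀ n, |q (n + 1) * β - p (n + 1)| * (4 ^ (n + 1) * Bd (n + 1)) ≤
    (1 / 2) ^ (n + 3) * |q n * β - p n|

lemma exists_freq {β : ℝ} (hβ : Liouville β) : Nonempty (Freq β) := by
  let S := {pq : ℤ × ℤ // pq.2 ≠ 0 ∧ 0 < |pq.2 * β - pq.1|}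
  have hB : ∀ n, 0 < 4 ^ n * Bd n := fun n => by
    have := one_le_Bd n
    positivity
  have step : ∀ (n : ℕ) (s : S), ∃ s' : S,
      |s'.1.2 * β - s'.1.1| * (1 + |(s'.1.1 : ℝ)| + |(s'.1.2 : ℝ)|) ^ (n + 1) *
        (4 ^ (n + 1) * Bd (n + 1)) ≤ (1 / 2) ^ (n + 1 + 2) ∧
      |s'.1.2 * β - s'.1.1| * (4 ^ (n + 1) * Bd (n + 1)) ≤ (1 / 2) ^ (n + 3) * |s.1.2 * β - s.1.1| := by
    intro n s
    have hs := s.2.2
    have hBn := hB (n + 1)
    obtain ⟨p, q, hq, h0, h1⟩ := liou hβ (n + 1)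
      (ε := min ((1 / 2) ^ (n + 1 + 2)) ((1 / 2) ^ (n + 3) * |s.1.2 * β - s.1.1|) /
        (4 ^ (n + 1) * Bd (n + 1))) (by positivity)
    rw [le_div_iff₀ hBn] at h1
    refine ⟨⟨(p, q), hq, h0⟩, h1.trans (min_le_left _ _), ?_⟩
    refine le_trans ?_ (h1.trans (min_le_right _ _))
    have h2 : (1 : ℝ) ≤ (1 + |(p : ℝ)| + |(q : ℝ)|) ^ (n + 1) := by
      apply one_le_pow₀
      have := abs_nonneg (p : ℝ)
      have := abs_nonneg (q : ℝ)
      linarith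
    have h3 : |(q : ℝ) * β - p| ≤ |(q : ℝ) * β - p| * (1 + |(p : ℝ)| + |(q : ℝ)|) ^ (n + 1) :=
      le_mul_of_one_le_right (abs_nonneg _) h2
    exact mul_le_mul_of_nonneg_right h3 hBn.le
  have start : ∃ s : S, |s.1.2 * β - s.1.1| * (1 + |(s.1.1 : ℝ)| + |(s.1.2 : ℝ)|) ^ 0 *
      (4 ^ 0 * Bd 0) ≤ (1 / 2) ^ (0 + 2) := by
    have hB0 := hB 0
    obtain ⟨p, q, hq, h0, h1⟩ := liou hβ 0 (ε := (1 / 2) ^ (0 + 2) / (4 ^ 0 * Bd 0)) (by positivity)
    rw [le_div_iff₀ hB0] at h1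
    exact ⟨⟨(p, q), hq, h0⟩, h1⟩
  choose nx h1 h2 using step
  obtain ⟨s0, hs0⟩ := start
  let f : ℕ → S := fun n => Nat.rec s0 (fun n s => nx n s) n
  have hf : ∀ n, f (n + 1) = nx n (f n) := fun n => rfl
  refine ⟨⟨fun n => (f n).1.1, fun n => (f n).1.2, fun n => (f n).2.1, fun n => (f n).2.2, ?_, ?_⟩⟩
  · intro n
    cases n with
    | zero => exact hs0
    | succ n => rw [hf]; exact h1 n (f n)
  · intro n
    rw [hf]
    exact h2 n (f n)

namespace Freq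

variable {β : ℝ} (D : Freq β)

/-- `δ_n = q_n β - p_n` -/
noncomputable def δ (n : ℕ) : ℝ := D.q n * β - D.p n

lemma δ_pos (n : ℕ) : 0 < |D.δ n| := D.hpos n

lemma δ_small (n : ℕ) : |D.δ n| * (4 ^ n * Bd n) ≤ (1 / 2) ^ (n + 2) := by
  refine le_trans ?_ (D.small n)
  have hB := one_le_Bd n
  have h2 : (1 : ℝ) ≤ (1 + |(D.p n : ℝ)| + |(D.q n : ℝ)|) ^ n := by
    apply one_le_pow₀
    have := abs_nonneg (D.p n : ℝ)
    have := abs_nonneg (D.q n : ℝ)
    linarith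
  have h3 : |D.δ n| ≤ |D.δ n| * (1 + |(D.p n : ℝ)| + |(D.q n : ℝ)|) ^ n :=
    le_mul_of_one_le_right (abs_nonneg _) h2
  exact mul_le_mul_of_nonneg_right h3 (by positivity)

lemma δ_small' (n : ℕ) : |D.δ n| * 4 ^ n ≤ (1 / 2) ^ (n + 2) := by
  refine le_trans ?_ (D.δ_small n)
  have hB := one_le_Bd n
  have h1 : (4 : ℝ) ^ n ≤ 4 ^ n * Bd n := le_mul_of_one_le_right (by positivity) hB
  exact mul_le_mul_of_nonneg_left h1 (abs_nonneg _)

lemma δ_decr (n : ℕ) : |D.δ (n + 1)| * (4 ^ (n + 1) * Bd (n + 1)) ≤ (1 / 2) ^ (n + 3) * |D.δ n| :=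
  D.decr n

lemma δ_antitone : Antitone (fun n => |D.δ n|) := by
  refine antitone_nat_of_succ_le fun n => ?_
  have h1 := D.δ_decr n
  have h2 : (1 : ℝ) ≤ 4 ^ (n + 1) * Bd (n + 1) :=
    one_le_mul_of_one_le_of_one_le (one_le_pow₀ (by norm_num)) (one_le_Bd _)
  have h3 : |D.δ (n + 1)| ≤ |D.δ (n + 1)| * (4 ^ (n + 1) * Bd (n + 1)) :=
    le_mul_of_one_le_right (abs_nonneg _) h2
  have h4 : (1 / 2 : ℝ) ^ (n + 3) ≤ 1 := pow_le_one₀ (by norm_num) (by norm_num)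
  have h5 : (1 / 2 : ℝ) ^ (n + 3) * |D.δ n| ≤ |D.δ n| :=
    mul_le_of_le_one_left (abs_nonneg _) h4
  linarith

lemma δ_tail {n N : ℕ} (h : N < n) : |D.δ n| * (4 ^ n * Bd n) ≤ (1 / 2) ^ (n + 2) * |D.δ N| := by
  obtain ⟨m, rfl⟩ : ∃ m, n = m + 1 := ⟨n - 1, by omega⟩
  refine (D.δ_decr m).trans ?_
  exact mul_le_mul_of_nonneg_left (D.δ_antitone (by omega : N ≤ m)) (by positivity)

end Freq

end Pool.Agent.U610.Nil
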