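import Pool.Agent.U610.Nil.UE3
import Pool.Agent.U610.Nil.TC1

/-!
The smooth function on the nilmanifold that defines the time change, and its integrals along the
orbits of the nilflow.
-/

open Set Topology Filter MeasureTheory
open Pool.Agent.R239.NilRet
open Pool.Agent.R239.NilRet.Heis
open scoped ContDiff

namespace Pool.Agent.U610.Nil

/-- a representative -/
noncomputable def rep (x : NilM) : Heis := Quotient.out x

lemma pr_rep (x : NilM) : pr (rep x) = x := Quotient.out_eq x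

/-- `C^∞` functions on the nilmanifold: those whose lift to `G = ℝ³` is `C^∞`. -/
def Smooth (α : NilM → ℝ) : Prop :=
  ContDiff ℝ ∞ (fun p : ℝ × ℝ × ℝ => α (pr (Heis.mk p.1 p.2.1 p.2.2)))

lemma continuous_of_lift {E : Type*} [TopologicalSpace E] {f : NilM → E}
    (h : Continuous (fun g : Heis => f (pr g))) : Continuous f :=
  isOpenQuotientMap_pr.isQuotientMap.continuous_iff.2 h

lemma Smooth.continuous {α : NilM → ℝ} (h : Smooth α) : Continuous α :=
  continuous_of_lift (ContDiff.continuous h)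

namespace Freq

variable {β : ℝ} (D : Freq β)

/-- the linear form `q_n y - p_n x` at a representative -/
noncomputable def v (n : ℕ) (x : NilM) : ℝ := D.q n * (rep x).y - D.p n * (rep x).x

lemma per_rep {E : Type*} {W : ℝ → E} (hW : Function.Periodic W 1) (n : ℕ) (g : Heis) (t : ℝ) :
    W (D.v n (pr g) + t) = W (D.q n * g.y - D.p n * g.x + t) := by
  obtain ⟨γ, ⟨⟨a, ha⟩, ⟨b, hb⟩, -⟩, hγ⟩ := pr_eq.1 (pr_rep (pr g)).symm
  unfold v
  rw [← hγ, mul_x, mul_y, ha, hb]
  have e : (D.q n : ℝ) * (b + g.y) - D.p n * (a + g.x) + t =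
      D.q n * g.y - D.p n * g.x + t + ((D.q n * b - D.p n * a : ℤ) : ℝ) * 1 := by
    push_cast; ring
  rw [e]
  exact hW.int_mul _ _

lemma per_rep' {E : Type*} {W : ℝ → E} (hW : Function.Periodic W 1) (n : ℕ) (g : Heis) :
    W (D.v n (pr g)) = W (D.q n * g.y - D.p n * g.x) := by
  have := D.per_rep hW n g 0
  rwa [add_zero, add_zero] at this

lemma per_flow {E : Type*} {W : ℝ → E} (hW : Function.Periodic W 1) (n : ℕ) (t : ℝ) (x : NilM) :
    W (D.v n (fl β t x)) = W (D.v n x + t * D.δ n) := by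
  obtain ⟨g, rfl⟩ := pr_surjective x
  show W (D.v n (pr (g * expH 1 β 0 t))) = _
  rw [D.per_rep' hW, D.per_rep hW]
  congr 1
  simp only [expH, mul_x, mul_y, x_mk, y_mk, δ]
  ring

/-- the function defining the time change -/
noncomputable def al (x : NilM) : ℝ := 1 + ∑' n, 4 ^ n * D.δ n * V n (D.v n x)

lemma term_bound (n : ℕ) (w : ℝ) : |4 ^ n * D.δ n * V n w| ≤ (1 / 2) ^ (n + 2) := by
  refine le_trans ?_ (D.δ_small n)
  rw [abs_mul, abs_mul, abs_of_pos (by positivity : (0 : ℝ) < 4 ^ n)]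
  have h := V_bound n w
  calc 4 ^ n * |D.δ n| * |V n w| ≤ 4 ^ n * |D.δ n| * Bd n := by gcongr
    _ = |D.δ n| * (4 ^ n * Bd n) := by ring

lemma hasSum_half : HasSum (fun n : ℕ => ((1 : ℝ) / 2) ^ (n + 2)) (1 / 2) := by
  have h := hasSum_geometric_of_lt_one (r := (1 / 2 : ℝ)) (by norm_num) (by norm_num)
  have h2 := h.mul_right ((1 / 2 : ℝ) ^ 2)
  simp only [← pow_add] at h2
  have e : (1 - (1 / 2 : ℝ))⁻¹ * (1 / 2) ^ 2 = 1 / 2 := by norm_num
  rw [e] at h2
  exact h2

lemma term_summable (w : ℕ → ℝ) : Summable (fun n => 4 ^ n * D.δ n * V n (w n)) :=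
  Summable.of_norm_bounded hasSum_half.summable fun n => D.term_bound n (w n)

lemma al_bound (x : NilM) : |D.al x - 1| ≤ 1 / 2 := by
  unfold al
  rw [add_sub_cancel_left]
  have h1 := tsum_of_norm_bounded hasSum_half (f := fun n => 4 ^ n * D.δ n * V n (D.v n x))
    fun n => D.term_bound n _
  exact h1

lemma al_pos (x : NilM) : 1 / 2 ≤ D.al x := by
  have := abs_le.1 (D.al_bound x)
  linarith [this.1]

lemma al_le (x : NilM) : D.al x ≤ 3 / 2 := by
  have := abs_le.1 (D.al_bound x)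
  linarith [this.2]

lemma al_smooth : Smooth D.al := by
  have e : (fun p : ℝ × ℝ × ℝ => D.al (pr (Heis.mk p.1 p.2.1 p.2.2))) =
      fun p => 1 + ∑' n, 4 ^ n * D.δ n * V n (D.q n * p.2.1 - D.p n * p.1) := by
    funext p
    unfold al
    congr 1
    refine tsum_congr fun n => ?_
    rw [D.per_rep' (V_periodic n)]
    rfl
  unfold Smooth
  rw [e]
  refine contDiff_const.add ?_
  -- the linear forms
  let ℓ : ℕ → (ℝ × ℝ × ℝ →L[ℝ] ℝ) := fun n =>
    (D.q n : ℝ) • ((ContinuousLinearMap.fst ℝ ℝ ℝ).comp (ContinuousLinearMap.snd ℝ ℝ (ℝ × ℝ))) -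
      (D.p n : ℝ) • (ContinuousLinearMap.fst ℝ ℝ (ℝ × ℝ))
  have hℓ : ∀ n p, ℓ n p = D.q n * p.2.1 - D.p n * p.1 := by
    intro n p
    simp [ℓ]
  have hℓn : ∀ n, ‖ℓ n‖ ≤ 1 + |(D.p n : ℝ)| + |(D.q n : ℝ)| := by
    intro n
    refine ContinuousLinearMap.opNorm_le_bound _ (by positivity) fun p => ?_
    rw [hℓ, Real.norm_eq_abs]
    have h1 : |p.1| ≤ ‖p‖ := norm_fst_le p
    have h2 : |p.2.1| ≤ ‖p‖ := (norm_fst_le p.2).trans (norm_snd_le p)
    refine (abs_sub _ _).trans ?_
    rw [abs_mul, abs_mul]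
    have h3 := norm_nonneg p
    nlinarith [abs_nonneg (D.q n : ℝ), abs_nonneg (D.p n : ℝ), mul_le_mul_of_nonneg_left h1
      (abs_nonneg (D.p n : ℝ)), mul_le_mul_of_nonneg_left h2 (abs_nonneg (D.q n : ℝ))]
  have hterm : ∀ n, (fun p : ℝ × ℝ × ℝ => 4 ^ n * D.δ n * V n (D.q n * p.2.1 - D.p n * p.1)) =
      (4 ^ n * D.δ n) • (V n ∘ ℓ n) := by
    intro n
    funext p
    simp only [Pi.smul_apply, Function.comp_apply, smul_eq_mul, hℓ]
  have hcd : ∀ n, ContDiff ℝ ∞ (V n ∘ ℓ n) := fun n => (V_contDiff n).comp (ℓ n).contDiff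
  refine contDiff_tsum_of_eventually (v := fun _ n => (1 / 2 : ℝ) ^ (n + 2)) ?_ ?_ ?_
  · intro n
    rw [hterm]
    exact contDiff_const.smul (hcd n)
  · intro k _
    exact hasSum_half.summable
  · intro k _
    rw [Nat.cofinite_eq_atTop]
    filter_upwards [eventually_ge_atTop k] with n hn p
    rw [hterm, iteratedFDeriv_const_smul_apply (((hcd n).of_le (by exact_mod_cast le_top)).contDiffAt),
      norm_smul, Real.norm_eq_abs,
      ContinuousLinearMap.iteratedFDeriv_comp_right (ℓ n) (V_contDiff n) p (by exact_mod_cast le_top)]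
    have h1 := ContinuousMultilinearMap.norm_compContinuousLinearMap_le
      (iteratedFDeriv ℝ k (V n) (ℓ n p)) (fun _ => ℓ n)
    rw [Finset.prod_const, Finset.card_univ, Fintype.card_fin] at h1
    have h2 := Bd_spec n hn (ℓ n p)
    have h3 : ‖ℓ n‖ ^ k ≤ (1 + |(D.p n : ℝ)| + |(D.q n : ℝ)|) ^ n := by
      calc ‖ℓ n‖ ^ k ≤ (1 + |(D.p n : ℝ)| + |(D.q n : ℝ)|) ^ k :=
            pow_le_pow_left₀ (norm_nonneg _) (hℓn n) k
        _ ≤ _ := by
          apply pow_le_pow_right₀ _ hn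
          have := abs_nonneg (D.p n : ℝ)
          have := abs_nonneg (D.q n : ℝ)
          linarith
    have hB := one_le_Bd n
    calc |4 ^ n * D.δ n| * ‖(iteratedFDeriv ℝ k (V n) (ℓ n p)).compContinuousLinearMap fun _ => ℓ n‖
        ≤ |4 ^ n * D.δ n| * (Bd n * (1 + |(D.p n : ℝ)| + |(D.q n : ℝ)|) ^ n) := by
          refine mul_le_mul_of_nonneg_left (h1.trans ?_) (abs_nonneg _)
          exact mul_le_mul h2 h3 (by positivity) (by positivity)
      _ = |D.δ n| * (1 + |(D.p n : ℝ)| + |(D.q n : ℝ)|) ^ n * (4 ^ n * Bd n) := by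
          rw [abs_mul, abs_of_pos (by positivity : (0 : ℝ) < 4 ^ n)]
          ring
      _ ≤ _ := D.small n

lemma al_continuous : Continuous D.al := D.al_smooth.continuous

lemma continuous_fl_joint (x : NilM) : Continuous (fun t => fl β t x) := by
  have h2 : Continuous (fun t : ℝ => ((expH 1 β 0 t, x) : Heis × NilM)) := by
    refine Continuous.prodMk ?_ continuous_const
    unfold expH
    exact continuous_mk (by fun_prop) (by fun_prop) (by fun_prop)
  exact continuous_rmul_joint.comp h2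

/-- `∫_0^t (α (φ_s x) - 1) ds` -/
noncomputable def I (t : ℝ) (x : NilM) : ℝ := ∫ s in (0 : ℝ)..t, (D.al (fl β s x) - 1)

/-- the increments of `U_n` along an orbit -/
noncomputable def w (n : ℕ) (t : ℝ) (x : NilM) : ℝ := 4 ^ n * (U n (D.v n (fl β t x)) - U n (D.v n x))

lemma w_eq (n : ℕ) (t : ℝ) (x : NilM) :
    D.w n t x = 4 ^ n * (U n (D.v n x + t * D.δ n) - U n (D.v n x)) := by
  unfold w
  rw [D.per_flow (U_periodic n)]

lemma w_int (n : ℕ) (t : ℝ) (x : NilM) :
    ∫ s in (0 : ℝ)..t, 4 ^ n * D.δ n * V n (D.v n x + s * D.δ n) = D.w n t x := by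
  rw [w_eq]
  have h1 : ∀ s ∈ uIcc (0 : ℝ) t, HasDerivAt (fun s => 4 ^ n * U n (D.v n x + s * D.δ n))
      (4 ^ n * D.δ n * V n (D.v n x + s * D.δ n)) s := by
    intro s _
    have h2 : HasDerivAt (fun s : ℝ => D.v n x + s * D.δ n) (D.δ n) s := by
      simpa using ((hasDerivAt_id s).mul_const (D.δ n)).const_add (D.v n x)
    have h3 := ((U_hasDerivAt n (D.v n x + s * D.δ n)).comp s h2).const_mul ((4 : ℝ) ^ n)
    have e : 4 ^ n * (V n (D.v n x + s * D.δ n) * D.δ n) =
      4 ^ n * D.δ n * V n (D.v n x + s * D.δ n) := by ring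
    rw [e] at h3
    exact h3
  rw [intervalIntegral.integral_eq_sub_of_hasDerivAt h1]
  · simp only [zero_mul, add_zero]; ring
  · apply Continuous.intervalIntegrable
    exact continuous_const.mul ((V_contDiff n).continuous.comp (by fun_prop))

lemma hasSum_I (t : ℝ) (x : NilM) : HasSum (fun n => D.w n t x) (D.I t x) := by
  have h1 : ∀ s, D.al (fl β s x) - 1 = ∑' n, 4 ^ n * D.δ n * V n (D.v n x + s * D.δ n) := by
    intro s
    unfold al
    rw [add_sub_cancel_left]
    refine tsum_congr fun n => ?_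
    rw [D.per_flow (V_periodic n)]
  unfold I
  simp only [h1, ← D.w_int]
  refine intervalIntegral.hasSum_integral_of_dominated_convergence
    (fun n _ => (1 / 2 : ℝ) ^ (n + 2)) ?_ ?_ ?_ ?_ ?_
  · intro n
    apply Continuous.aestronglyMeasurable
    exact continuous_const.mul ((V_contDiff n).continuous.comp (by fun_prop))
  · intro n
    exact Eventually.of_forall fun s _ => D.term_bound n _
  · exact Eventually.of_forall fun s _ => hasSum_half.summable
  · exact _root_.intervalIntegrable_const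
  · exact Eventually.of_forall fun s _ => (D.term_summable _).hasSum

lemma w_bound (n : ℕ) (t : ℝ) (x : NilM) : |D.w n t x| ≤ |t| * (|D.δ n| * (4 ^ n * Bd n)) := by
  rw [← w_int]
  have := intervalIntegral.norm_integral_le_of_norm_le_const (a := 0) (b := t)
    (f := fun s => 4 ^ n * D.δ n * V n (D.v n x + s * D.δ n)) (C := |D.δ n| * (4 ^ n * Bd n)) ?_
  · rw [sub_zero, Real.norm_eq_abs] at this
    refine this.trans (le_of_eq (by ring))
  · intro s _
    rw [Real.norm_eq_abs, abs_mul, abs_mul, abs_of_pos (by positivity : (0 : ℝ) < 4 ^ n)]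
    have h := V_bound n (D.v n x + s * D.δ n)
    calc 4 ^ n * |D.δ n| * |V n (D.v n x + s * D.δ n)| ≤ 4 ^ n * |D.δ n| * Bd n := by gcongr
      _ = |D.δ n| * (4 ^ n * Bd n) := by ring

lemma w_bound' (n : ℕ) (t : ℝ) (x : NilM) : |D.w n t x| ≤ 4 ^ n := by
  unfold w
  rw [abs_mul, abs_of_pos (by positivity : (0 : ℝ) < 4 ^ n)]
  have h1 := U_nonneg n (D.v n (fl β t x))
  have h2 := U_le_one n (D.v n (fl β t x))
  have h3 := U_nonneg n (D.v n x)
  have h4 := U_le_one n (D.v n x)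
  have : |U n (D.v n (fl β t x)) - U n (D.v n x)| ≤ 1 := by
    rw [abs_le]; constructor <;> linarith
  nlinarith [pow_pos (by norm_num : (0 : ℝ) < 4) n]

end Freq

end Pool.Agent.U610.Nil
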