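import Pool.Agent.U610.Nil.TC2

/-!
The distribution of the phases `q_n y - p_n x` and the measurable eigenfunction.
-/

open Set Topology Filter MeasureTheory
open Pool.Agent.R239.NilRet
open Pool.Agent.R239.NilRet.Heis
open scoped ContDiff ENNReal

namespace Pool.Agent.U610.Nil

lemma sin_lower {v : ℝ} (h0 : 0 ≤ v) (h1 : v ≤ 1 / 4) : 4 * v ≤ Real.sin (2 * Real.pi * v) := by
  have hp := Real.pi_pos
  have := Real.mul_le_sin (x := 2 * Real.pi * v) (by positivity) (by nlinarith)
  refine le_trans (le_of_eq ?_) this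
  field_simp
  ring

lemma small_sin {v ε : ℝ} (h0 : 0 < v) (h1 : v ≤ 1) (h : |Real.sin (2 * Real.pi * v)| < ε) :
    v ∈ Icc 0 (ε / 4) ∪ (Icc (1 / 2 - ε / 4) (1 / 2 + ε / 4) ∪ Icc (1 - ε / 4) 1) := by
  rcases le_total v (1 / 4) with h2 | h2
  · left
    have := sin_lower h0.le h2
    have h3 := le_abs_self (Real.sin (2 * Real.pi * v))
    exact ⟨h0.le, by linarith⟩
  rcases le_total v (1 / 2) with h3 | h3
  · right; left
    have h4 := sin_lower (v := 1 / 2 - v) (by linarith) (by linarith)
    have e : Real.sin (2 * Real.pi * (1 / 2 - v)) = Real.sin (2 * Real.pi * v) := by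
      rw [← Real.sin_pi_sub (2 * Real.pi * v)]
      congr 1; ring
    rw [e] at h4
    have h5 := le_abs_self (Real.sin (2 * Real.pi * v))
    exact ⟨by linarith, by linarith⟩
  rcases le_total v (3 / 4) with h4 | h4
  · right; left
    have h5 := sin_lower (v := v - 1 / 2) (by linarith) (by linarith)
    have e : Real.sin (2 * Real.pi * (v - 1 / 2)) = -Real.sin (2 * Real.pi * v) := by
      rw [← Real.sin_sub_pi (2 * Real.pi * v)]
      congr 1; ring
    rw [e] at h5
    have h6 := neg_le_abs (Real.sin (2 * Real.pi * v))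
    exact ⟨by linarith, by linarith⟩
  · right; right
    have h5 := sin_lower (v := 1 - v) (by linarith) (by linarith)
    have e : Real.sin (2 * Real.pi * (1 - v)) = -Real.sin (2 * Real.pi * v) := by
      rw [← Real.sin_two_pi_sub (2 * Real.pi * v)]
      congr 1; ring
    rw [e] at h5
    have h6 := neg_le_abs (Real.sin (2 * Real.pi * v))
    exact ⟨by linarith, h1⟩

lemma volume_small {ε : ℝ} (hε : 0 < ε) :
    volume ({v : ℝ | |Real.sin (2 * Real.pi * v)| < ε} ∩ Ioc 0 1) ≤ ENNReal.ofReal ε := by
  have h1 : {v : ℝ | |Real.sin (2 * Real.pi * v)| < ε} ∩ Ioc 0 1 ⊆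
      Icc 0 (ε / 4) ∪ (Icc (1 / 2 - ε / 4) (1 / 2 + ε / 4) ∪ Icc (1 - ε / 4) 1) := by
    rintro v ⟨h, h0, h1⟩
    exact small_sin h0 h1 h
  refine (measure_mono h1).trans ((measure_union_le _ _).trans
    ((add_le_add le_rfl (measure_union_le _ _)).trans ?_))
  rw [Real.volume_Icc, Real.volume_Icc, Real.volume_Icc, ← ENNReal.ofReal_add (by linarith) (by linarith),
    ← ENNReal.ofReal_add (by linarith) (by linarith)]
  apply ENNReal.ofReal_le_ofReal
  linarith

namespace Freq

variable {β : ℝ} (D : Freq β)

/-- the phase as a point of the circle -/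
noncomputable def ph (n : ℕ) (x : NilM) : UnitAddCircle := (D.v n x : UnitAddCircle)

lemma coe_periodic : Function.Periodic (fun v : ℝ => (v : UnitAddCircle)) 1 := by
  intro v
  show ((v + 1 : ℝ) : UnitAddCircle) = v
  rw [AddCircle.coe_add, AddCircle.coe_period, add_zero]

lemma ph_pr (n : ℕ) (g : Heis) : D.ph n (pr g) = ((D.q n * g.y - D.p n * g.x : ℝ) : UnitAddCircle) :=
  D.per_rep' coe_periodic n g

lemma continuous_ph (n : ℕ) : Continuous (D.ph n) := by
  refine continuous_of_lift ?_
  simp only [D.ph_pr]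
  exact (AddCircle.continuous_mk' 1).comp
    ((continuous_const.mul continuous_y).sub (continuous_const.mul continuous_x))

lemma ph_rmul (n : ℕ) (s : ℝ) (x : NilM) :
    D.ph n (rmul (Heis.mk 0 s 0) x) = ((D.q n * s : ℝ) : UnitAddCircle) + D.ph n x := by
  obtain ⟨g, rfl⟩ := pr_surjective x
  rw [rmul_pr, ph_pr, ph_pr, ← AddCircle.coe_add]
  congr 1
  simp only [mul_x, mul_y, x_mk, y_mk]
  ring

lemma map_ph (n : ℕ) : Measure.map (D.ph n) haar = (volume : Measure UnitAddCircle) := by
  have hm := (D.continuous_ph n).measurable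
  have : IsProbabilityMeasure (Measure.map (D.ph n) haar) :=
    Measure.isProbabilityMeasure_map hm.aemeasurable
  have hq : (D.q n : ℝ) ≠ 0 := by exact_mod_cast D.hq n
  have hinv : (Measure.map (D.ph n) haar).IsAddLeftInvariant := by
    constructor
    intro c
    induction c using QuotientAddGroup.induction_on with
    | H c =>
      set s := c / D.q n
      have hs : D.q n * s = c := by simp only [s]; field_simp
      rw [Measure.map_map (measurable_const_add _) hm]
      have e : (fun t : UnitAddCircle => ((c : ℝ) : UnitAddCircle) + t) ∘ D.ph n =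
          D.ph n ∘ rmul (Heis.mk 0 s 0) := by
        funext x
        simp only [Function.comp_apply]
        rw [D.ph_rmul, hs]
      have e2 : Measure.map ((fun t : UnitAddCircle => ((c : ℝ) : UnitAddCircle) + t) ∘ D.ph n) haar =
          Measure.map (D.ph n) haar := by
        rw [e, ← Measure.map_map hm (continuous_rmul _).measurable, (mp_rmul _).map_eq]
      exact e2
  have h1 := Measure.isAddInvariant_eq_smul_of_compactSpace (Measure.map (D.ph n) haar)
    (volume : Measure UnitAddCircle)
  have h2 : (Measure.map (D.ph n) haar) univ = 1 := measure_univ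
  rw [h1] at h2
  have h3 : (volume : Measure UnitAddCircle) univ = 1 := by
    rw [AddCircle.measure_univ, ENNReal.ofReal_one]
  rw [Measure.smul_apply, h3] at h2
  have h4 : Measure.addHaarScalarFactor (Measure.map (D.ph n) haar) (volume : Measure UnitAddCircle)
      = 1 := by
    have : ((Measure.addHaarScalarFactor (Measure.map (D.ph n) haar)
      (volume : Measure UnitAddCircle) : NNReal) : ℝ≥0∞) = 1 := by
      simpa [ENNReal.smul_def] using h2
    exact_mod_cast this
  rw [h1, h4, one_smul]

lemma haar_phase (n : ℕ) {P : ℝ → Prop} (hP : ∀ v, P (v + 1) ↔ P v) (hm : MeasurableSet {v | P v}) :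
    haar {x | P (D.v n x)} = volume ({v | P v} ∩ Ioc 0 1) := by
  -- the set in the circle
  have hper : Function.Periodic P 1 := fun v => propext (hP v)
  let S : Set UnitAddCircle := {t | hper.lift t}
  have hS : ∀ v : ℝ, (v : UnitAddCircle) ∈ S ↔ P v := fun v => Iff.rfl
  have hSm : MeasurableSet S := by
    have h1 : MeasurableSet ((fun v : ℝ => (v : UnitAddCircle)) ⁻¹' S) := hm
    exact measurableSet_quotient.2 h1
  have e1 : {x | P (D.v n x)} = D.ph n ⁻¹' S := by
    ext x; exact (hS _).symm
  rw [e1, ← Measure.map_apply (D.continuous_ph n).measurable hSm, D.map_ph n]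
  have h1 := UnitAddCircle.measurePreserving_mk 0
  rw [← h1.measure_preimage hSm.nullMeasurableSet]
  rw [Measure.restrict_apply (h1.measurable hSm), zero_add]
  rfl

/-- points at which almost all phases are far from the transition zones -/
def Good : Set NilM := {x | ∀ᶠ n in atTop, 1 ≤ 2 ^ n * |Real.sin (2 * Real.pi * D.v n x)|}

lemma sin_per (v : ℝ) : Real.sin (2 * Real.pi * (v + 1)) = Real.sin (2 * Real.pi * v) := by
  rw [mul_add, mul_one, Real.sin_add_two_pi]

lemma ae_good : ∀ᵐ x ∂haar, x ∈ D.Good := by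
  have h1 : ∀ n, haar {x | |Real.sin (2 * Real.pi * D.v n x)| < (1 / 2) ^ n} ≤
      ENNReal.ofReal ((1 / 2) ^ n) := by
    intro n
    rw [D.haar_phase n (P := fun v => |Real.sin (2 * Real.pi * v)| < (1 / 2) ^ n)]
    · exact volume_small (by positivity)
    · intro v; rw [sin_per]
    · exact measurableSet_lt (by fun_prop) measurable_const
  have h2 : ∑' n, haar {x | |Real.sin (2 * Real.pi * D.v n x)| < (1 / 2) ^ n} ≠ ⊤ := by
    refine ne_top_of_le_ne_top ?_ (ENNReal.tsum_le_tsum h1)
    rw [← ENNReal.ofReal_tsum_of_nonneg (fun n => by positivity)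
      (summable_geometric_of_lt_one (by norm_num) (by norm_num))]
    exact ENNReal.ofReal_ne_top
  filter_upwards [ae_eventually_notMem h2] with x hx
  filter_upwards [hx] with n hn
  simp only [mem_ofPred_eq, not_lt] at hn
  have h3 : (2 : ℝ) ^ n * (1 / 2) ^ n = 1 := by rw [← mul_pow]; norm_num
  rw [← h3]
  exact mul_le_mul_of_nonneg_left hn (by positivity)

end Freq

end Pool.Agent.U610.Nil
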