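import Pool.Agent.U610.Nil.TC3

/-!
The measurable eigenfunction of the time change.
-/

open Set Topology Filter MeasureTheory
open Pool.Agent.R239.NilRet
open Pool.Agent.R239.NilRet.Heis
open scoped ContDiff ENNReal

namespace Pool.Agent.U610.Nil

/-- `e^{2 π i r}` -/
noncomputable def E (r : ℝ) : ℂ := Complex.exp (2 * Real.pi * r * Complex.I)

lemma E_add (r s : ℝ) : E (r + s) = E r * E s := by
  unfold E
  rw [← Complex.exp_add]
  congr 1
  push_cast; ring

lemma E_zero : E 0 = 1 := by simp [E]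

lemma E_int (m : ℤ) : E m = 1 := by
  unfold E
  rw [Complex.exp_eq_one_iff]
  exact ⟨m, by push_cast; ring⟩

lemma E_nat (m : ℕ) : E m = 1 := by
  have := E_int m
  simpa using this

lemma E_neg (r : ℝ) : E (-r) = (E r)⁻¹ := by
  unfold E
  rw [← Complex.exp_neg]
  congr 1
  push_cast; ring

lemma E_ne_zero (r : ℝ) : E r ≠ 0 := Complex.exp_ne_zero _

lemma E_sum (s : Finset ℕ) (f : ℕ → ℝ) : E (∑ n ∈ s, f n) = ∏ n ∈ s, E (f n) := by
  classical
  induction s using Finset.induction_on with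
  | empty => simp [E_zero]
  | insert a s ha ih => rw [Finset.sum_insert ha, Finset.prod_insert ha, E_add, ih]

lemma E_re (r : ℝ) : (E r).re = Real.cos (2 * Real.pi * r) := by
  unfold E
  have : (2 * Real.pi * r * Complex.I : ℂ) = ((2 * Real.pi * r : ℝ) : ℂ) * Complex.I := by push_cast; ring
  rw [this, Complex.exp_ofReal_mul_I_re]

lemma E_im (r : ℝ) : (E r).im = Real.sin (2 * Real.pi * r) := by
  unfold E
  have : (2 * Real.pi * r * Complex.I : ℂ) = ((2 * Real.pi * r : ℝ) : ℂ) * Complex.I := by push_cast; ring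
  rw [this, Complex.exp_ofReal_mul_I_im]

lemma continuous_E : Continuous E := by unfold E; fun_prop

lemma measurable_of_lift {F : Type*} [MeasurableSpace F] {f : NilM → F}
    (h : Measurable (fun g : Heis => f (pr g))) : Measurable f :=
  measurable_from_quotient.2 h

namespace Freq

variable {β : ℝ} (D : Freq β)

open Classical in
/-- the non-integral part of `4 ^ n U_n` as a function of the phase -/
noncomputable def uu (n : ℕ) (v : ℝ) : ℝ :=
  if 2 ^ n * |Real.sin (2 * Real.pi * v)| < 1 / 2 then 4 ^ n * U n v else 0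

lemma uu_nonneg (n : ℕ) (v : ℝ) : 0 ≤ uu n v := by
  unfold uu
  split_ifs
  · exact mul_nonneg (by positivity) (U_nonneg n v)
  · exact le_rfl

lemma uu_periodic (n : ℕ) : Function.Periodic (uu n) 1 := by
  intro v
  unfold uu
  rw [sin_per, U_periodic n v]

lemma uu_measurable (n : ℕ) : Measurable (uu n) := by
  unfold uu
  refine Measurable.ite ?_ ?_ measurable_const
  · exact measurableSet_lt (by fun_prop) measurable_const
  · exact measurable_const.mul (U_contDiff n).continuous.measurable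

lemma E_uu (n : ℕ) (v : ℝ) : E (uu n v) = E (4 ^ n * U n v) := by
  unfold uu
  split_ifs with h
  · rfl
  · rw [not_lt] at h
    rcases U_int h with h1 | h1
    · rw [h1, mul_zero]
    · rw [h1, mul_one, E_zero]
      have := E_nat (4 ^ n)
      push_cast at this
      exact this.symm

/-- the sum of the non-integral parts -/
noncomputable def W (x : NilM) : ℝ := (∑' n, ENNReal.ofReal (uu n (D.v n x))).toReal

lemma measurable_W : Measurable D.W := by
  unfold W
  refine ENNReal.measurable_toReal.comp ?_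
  refine Measurable.tsum fun n => ENNReal.measurable_ofReal.comp ?_
  refine measurable_of_lift ?_
  have e : (fun g : Heis => uu n (D.v n (pr g))) = fun g : Heis => uu n (D.q n * g.y - D.p n * g.x) := by
    funext g
    rw [D.per_rep' (uu_periodic n)]
  rw [e]
  exact (uu_measurable n).comp
    ((continuous_const.mul continuous_y).sub (continuous_const.mul continuous_x)).measurable

lemma W_eq {x : NilM} {N : ℕ} (h : ∀ n ≥ N, uu n (D.v n x) = 0) :
    D.W x = ∑ n ∈ Finset.range N, uu n (D.v n x) := by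
  unfold W
  rw [tsum_eq_sum (s := Finset.range N)]
  · rw [ENNReal.toReal_sum (fun n _ => ENNReal.ofReal_ne_top)]
    exact Finset.sum_congr rfl fun n _ => ENNReal.toReal_ofReal (uu_nonneg n _)
  · intro n hn
    rw [Finset.mem_range, not_lt] at hn
    rw [h n hn, ENNReal.ofReal_zero]

/-- the eigenfunction -/
noncomputable def Psi (x : NilM) : ℂ := E (rep x).x * E (D.W x)

lemma E_x_pr (g : Heis) (t : ℝ) : E ((rep (pr g)).x + t) = E (g.x + t) := by
  obtain ⟨γ, ⟨⟨a, ha⟩, -, -⟩, hγ⟩ := pr_eq.1 (pr_rep (pr g)).symm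
  rw [← hγ, mul_x, ha, add_assoc, E_add, E_int, one_mul]

lemma measurable_Psi : Measurable D.Psi := by
  unfold Psi
  refine Measurable.mul ?_ (continuous_E.measurable.comp D.measurable_W)
  refine measurable_of_lift ?_
  have e : (fun g : Heis => E (rep (pr g)).x) = fun g : Heis => E g.x := by
    funext g
    have := E_x_pr g 0
    rwa [add_zero, add_zero] at this
  rw [e]
  exact (continuous_E.comp continuous_x).measurable

lemma Psi_ne_zero (x : NilM) : D.Psi x ≠ 0 := mul_ne_zero (E_ne_zero _) (E_ne_zero _)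

lemma E_x_flow (t : ℝ) (x : NilM) : E (rep (fl β t x)).x = E t * E (rep x).x := by
  obtain ⟨g, rfl⟩ := pr_surjective x
  have h1 := E_x_pr (g * expH 1 β 0 t) 0
  have h2 := E_x_pr g 0
  rw [add_zero, add_zero] at h1 h2
  show E (rep (pr (g * expH 1 β 0 t))).x = _
  rw [h1, h2, ← E_add]
  congr 1
  simp only [expH, mul_x, x_mk]
  ring

lemma good_spec {x : NilM} (hx : x ∈ D.Good) (t : ℝ) : ∃ N, ∀ n ≥ N,
    uu n (D.v n x) = 0 ∧ uu n (D.v n (fl β t x)) = 0 ∧ D.w n t x = 0 := by
  have h1 : ∀ᶠ n in atTop, 1 ≤ 2 ^ n * |Real.sin (2 * Real.pi * D.v n x)| := hx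
  have h2 : Tendsto (fun n : ℕ => (2 * Real.pi * |t| + |t|) * (1 / 2 : ℝ) ^ (n + 2)) atTop (𝓝 0) := by
    have : Tendsto (fun n : ℕ => (1 / 2 : ℝ) ^ (n + 2)) atTop (𝓝 0) :=
      (tendsto_pow_atTop_nhds_zero_of_lt_one (by norm_num) (by norm_num)).comp (tendsto_add_atTop_nat 2)
    simpa using this.const_mul (2 * Real.pi * |t| + |t|)
  have h3 : ∀ᶠ n : ℕ in atTop, (2 * Real.pi * |t| + |t|) * (1 / 2 : ℝ) ^ (n + 2) < 1 / 2 :=
    h2.eventually (gt_mem_nhds (by norm_num))
  obtain ⟨N, hN⟩ := eventually_atTop.1 (h1.and h3)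
  refine ⟨N, fun n hn => ?_⟩
  obtain ⟨h4, h5⟩ := hN n hn
  have hpi := Real.pi_pos
  have hq : 0 ≤ 2 * Real.pi * |t| * (1 / 2 : ℝ) ^ (n + 2) := by positivity
  have hq2 : 0 ≤ |t| * (1 / 2 : ℝ) ^ (n + 2) := by positivity
  -- the phase at time t
  have h6 : |Real.sin (2 * Real.pi * (D.v n x + t * D.δ n)) - Real.sin (2 * Real.pi * D.v n x)| ≤
      2 * Real.pi * |t| * |D.δ n| := by
    have h7 : |Real.sin (2 * Real.pi * (D.v n x + t * D.δ n)) - Real.sin (2 * Real.pi * D.v n x)| ≤
        |2 * Real.pi * (D.v n x + t * D.δ n) - 2 * Real.pi * D.v n x| :=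
      Real.abs_sin_sub_sin_le _ _
    refine h7.trans (le_of_eq ?_)
    have e : 2 * Real.pi * (D.v n x + t * D.δ n) - 2 * Real.pi * D.v n x =
      2 * Real.pi * t * D.δ n := by ring
    rw [e, abs_mul, abs_mul, abs_of_pos (by positivity : 0 < 2 * Real.pi)]
  have h8 : (2 : ℝ) ^ n * (2 * Real.pi * |t| * |D.δ n|) ≤ 2 * Real.pi * |t| * (1 / 2) ^ (n + 2) := by
    have h9 := D.δ_small' n
    have h10 : (2 : ℝ) ^ n ≤ 4 ^ n := pow_le_pow_left₀ (by norm_num) (by norm_num) n
    have h11 : |D.δ n| * 2 ^ n ≤ |D.δ n| * 4 ^ n := mul_le_mul_of_nonneg_left h10 (abs_nonneg _)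
    calc (2 : ℝ) ^ n * (2 * Real.pi * |t| * |D.δ n|) = 2 * Real.pi * |t| * (|D.δ n| * 2 ^ n) := by ring
      _ ≤ 2 * Real.pi * |t| * (1 / 2) ^ (n + 2) := by
        refine mul_le_mul_of_nonneg_left (h11.trans h9) (by positivity)
  have h12 : 1 / 2 ≤ 2 ^ n * |Real.sin (2 * Real.pi * (D.v n x + t * D.δ n))| := by
    have h13 : |Real.sin (2 * Real.pi * D.v n x)| -
        |Real.sin (2 * Real.pi * (D.v n x + t * D.δ n))| ≤ 2 * Real.pi * |t| * |D.δ n| := by
      refine (abs_sub_abs_le_abs_sub _ _).trans ?_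
      rw [abs_sub_comm]
      exact h6
    have h14 : (2 : ℝ) ^ n * (|Real.sin (2 * Real.pi * D.v n x)| -
        |Real.sin (2 * Real.pi * (D.v n x + t * D.δ n))|) ≤ 2 ^ n * (2 * Real.pi * |t| * |D.δ n|) :=
      mul_le_mul_of_nonneg_left h13 (by positivity)
    rw [mul_sub] at h14
    linarith
  have hA : uu n (D.v n x) = 0 := by
    unfold uu
    rw [if_neg (by linarith)]
  have hB : uu n (D.v n (fl β t x)) = 0 := by
    rw [D.per_flow (uu_periodic n)]
    unfold uu
    rw [if_neg (by linarith)]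
  refine ⟨hA, hB, ?_⟩
  -- integrality
  have hU1 : U n (D.v n x) = 0 ∨ U n (D.v n x) = 1 := U_int (by linarith)
  have hU2 : U n (D.v n x + t * D.δ n) = 0 ∨ U n (D.v n x + t * D.δ n) = 1 := U_int h12
  have hw1 : |D.w n t x| < 1 := by
    have := D.w_bound n t x
    have h15 := D.δ_small n
    have h16 : |t| * (|D.δ n| * (4 ^ n * Bd n)) ≤ |t| * (1 / 2) ^ (n + 2) :=
      mul_le_mul_of_nonneg_left h15 (abs_nonneg _)
    linarith
  rw [D.w_eq] at hw1 ⊢
  have h4n : (1 : ℝ) ≤ 4 ^ n := one_le_pow₀ (by norm_num)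
  rcases hU1 with h1 | h1 <;> rcases hU2 with h2 | h2
  · rw [h1, h2]; ring
  · rw [h1, h2, sub_zero, mul_one, abs_of_pos (by positivity)] at hw1
    linarith
  · rw [h1, h2, zero_sub, mul_neg, mul_one, abs_neg, abs_of_pos (by positivity)] at hw1
    linarith
  · rw [h1, h2]; ring

/-- `∫_0^t α (φ_s x) ds` -/
noncomputable def clk (t : ℝ) (x : NilM) : ℝ := ∫ s in (0 : ℝ)..t, D.al (fl β s x)

lemma continuous_al_orbit (x : NilM) : Continuous (fun s => D.al (fl β s x)) :=
  D.al_continuous.comp (continuous_fl_joint x)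

lemma clk_eq (t : ℝ) (x : NilM) : D.clk t x = t + D.I t x := by
  unfold clk I
  rw [intervalIntegral.integral_sub]
  · simp
  · exact (D.continuous_al_orbit x).intervalIntegrable _ _
  · exact continuous_const.intervalIntegrable _ _

/-- `Ψ` is an eigenfunction along the orbits of the good points. -/
lemma Psi_flow {x : NilM} (hx : x ∈ D.Good) (t : ℝ) :
    D.Psi (fl β t x) = E (D.clk t x) * D.Psi x := by
  obtain ⟨N, hN⟩ := D.good_spec hx t
  have h1 : D.I t x = ∑ n ∈ Finset.range N, D.w n t x := by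
    have h2 : HasSum (fun n => D.w n t x) (∑ n ∈ Finset.range N, D.w n t x) := by
      refine hasSum_sum_of_ne_finset_zero fun n hn => ?_
      rw [Finset.mem_range, not_lt] at hn
      exact (hN n hn).2.2
    exact (D.hasSum_I t x).unique h2
  have h3 : D.W x = ∑ n ∈ Finset.range N, uu n (D.v n x) := D.W_eq fun n hn => (hN n hn).1
  have h4 : D.W (fl β t x) = ∑ n ∈ Finset.range N, uu n (D.v n (fl β t x)) :=
    D.W_eq fun n hn => (hN n hn).2.1
  have h5 : E (D.W (fl β t x)) = E (D.I t x) * E (D.W x) := by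
    rw [h1, h3, h4, E_sum, E_sum, E_sum, ← Finset.prod_mul_distrib]
    refine Finset.prod_congr rfl fun n _ => ?_
    rw [E_uu, E_uu, ← E_add]
    congr 1
    unfold w
    ring
  unfold Psi
  rw [E_x_flow, h5, D.clk_eq, E_add]
  ring

end Freq

end Pool.Agent.U610.Nil
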