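import Pool.Agent.U610.Nil.TC4

/-!
The time change is measurably non-trivial.
-/

open Set Topology Filter MeasureTheory
open Pool.Agent.R239.NilRet
open Pool.Agent.R239.NilRet.Heis
open scoped ContDiff ENNReal

namespace Pool.Agent.U610.Nil

lemma tight {u : NilM → ℝ} (hu : Measurable u) : ∃ K : ℝ, 0 ≤ K ∧ haar.real {x | K < |u x|} < 1 / 8 := by
  have h1 : Tendsto (fun n : ℕ => haar {x | (n : ℝ) < |u x|}) atTop (𝓝 (haar (⋂ n : ℕ, {x | (n : ℝ) < |u x|}))) := by
    refine tendsto_measure_iInter_atTop (fun n => ?_) ?_ ⟨0, measure_ne_top _ _⟩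
    · exact (measurableSet_lt measurable_const hu.abs).nullMeasurableSet
    · intro m n hmn x hx
      have h1 : (m : ℝ) ≤ n := by exact_mod_cast hmn
      exact lt_of_le_of_lt h1 hx
  have h2 : (⋂ n : ℕ, {x | (n : ℝ) < |u x|}) = ∅ := by
    rw [eq_empty_iff_forall_notMem]
    intro x hx
    obtain ⟨n, hn⟩ := exists_nat_gt |u x|
    have := mem_iInter.1 hx n
    exact lt_asymm hn this
  rw [h2, measure_empty] at h1
  have h3 : ∀ᶠ n : ℕ in atTop, haar {x | (n : ℝ) < |u x|} < ENNReal.ofReal (1 / 8) :=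
    h1.eventually (gt_mem_nhds (by simp))
  obtain ⟨n, hn⟩ := h3.exists
  refine ⟨n, Nat.cast_nonneg n, ?_⟩
  rw [measureReal_def]
  exact (ENNReal.lt_ofReal_iff_toReal_lt (measure_ne_top _ _)).1 hn

namespace Freq

variable {β : ℝ} (D : Freq β)

lemma geo_sum (N : ℕ) : ∑ n ∈ Finset.range N, (4 : ℝ) ^ n ≤ 4 ^ N / 3 := by
  induction N with
  | zero => simp
  | succ N ih => rw [Finset.sum_range_succ, pow_succ]; linarith [pow_pos (by norm_num : (0 : ℝ) < 4) N]

/-- the time at which the `N`-th phase has moved by a half -/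
noncomputable def tN (N : ℕ) : ℝ := 1 / (2 * |D.δ N|)

lemma tN_pos (N : ℕ) : 0 < D.tN N := by
  have := D.δ_pos N
  unfold tN; positivity

lemma tN_δ (N : ℕ) : D.tN N * |D.δ N| = 1 / 2 := by
  have := D.δ_pos N
  unfold tN
  field_simp

lemma tN_large (N : ℕ) : 2 ^ (N + 1) * 4 ^ N ≤ D.tN N := by
  have h1 := D.δ_small' N
  have h2 := D.δ_pos N
  have h3 := D.tN_δ N
  have h4 : (1 / 2 : ℝ) ^ (N + 2) * 2 ^ (N + 2) = 1 := by rw [← mul_pow]; norm_num
  have h5 : |D.δ N| * 4 ^ N * 2 ^ (N + 2) ≤ 1 := by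
    rw [← h4]
    exact mul_le_mul_of_nonneg_right h1 (by positivity)
  have h6 : 2 ^ (N + 1) * 4 ^ N * |D.δ N| ≤ D.tN N * |D.δ N| := by
    rw [h3]
    have : (2 : ℝ) ^ (N + 2) = 2 * 2 ^ (N + 1) := by rw [pow_succ]; ring
    rw [this] at h5
    linarith
  exact le_of_mul_le_mul_right h6 h2

lemma I_approx (N : ℕ) (x : NilM) : |D.I (D.tN N) x - D.w N (D.tN N) x| ≤ 4 ^ N / 3 + 1 / 4 := by
  classical
  set t := D.tN N with ht
  have ht0 := D.tN_pos N
  have h1 : HasSum (fun n => if n = N then 0 else D.w n t x) (D.I t x - D.w N t x) := by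
    have h2 := D.hasSum_I t x
    have h3 : HasSum (fun n => if n = N then D.w N t x else 0) (D.w N t x) := by
      have := hasSum_ite_eq N (D.w N t x)
      exact this
    have h4 := h2.sub h3
    have e : (fun n => D.w n t x - if n = N then D.w N t x else 0) =
        fun n => if n = N then 0 else D.w n t x := by
      funext n
      by_cases hn : n = N
      · rw [if_pos hn, if_pos hn, hn, sub_self]
      · rw [if_neg hn, if_neg hn, sub_zero]
    rw [e] at h4
    exact h4
  have h5 : HasSum (fun n : ℕ => (if n < N then (4 : ℝ) ^ n else 0) + (1 / 2) ^ (n + 3))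
      (∑ n ∈ Finset.range N, (4 : ℝ) ^ n + 1 / 4) := by
    refine HasSum.add ?_ ?_
    · have : HasSum (fun n : ℕ => if n < N then (4 : ℝ) ^ n else 0)
          (∑ n ∈ Finset.range N, if n < N then (4 : ℝ) ^ n else 0) := by
        refine hasSum_sum_of_ne_finset_zero fun n hn => ?_
        rw [Finset.mem_range] at hn
        rw [if_neg hn]
      have e : (∑ n ∈ Finset.range N, if n < N then (4 : ℝ) ^ n else 0) =
          ∑ n ∈ Finset.range N, (4 : ℝ) ^ n :=
        Finset.sum_congr rfl fun n hn => if_pos (Finset.mem_range.1 hn)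
      rwa [e] at this
    · have := hasSum_half.mul_right (1 / 2 : ℝ)
      simp only [← pow_succ] at this
      have e : (1 / 2 : ℝ) * (1 / 2) = 1 / 4 := by norm_num
      rw [e] at this
      exact this
  have h6 := tsum_of_norm_bounded h5 (f := fun n => if n = N then 0 else D.w n t x) ?_
  · rw [h1.tsum_eq] at h6
    rw [Real.norm_eq_abs] at h6
    have := geo_sum N
    linarith
  · intro n
    have hp : (0 : ℝ) < (1 / 2) ^ (n + 3) := by positivity
    rcases lt_trichotomy n N with h | h | h
    · rw [if_neg h.ne, if_pos h, Real.norm_eq_abs]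
      have := D.w_bound' n t x
      linarith
    · subst h
      rw [if_pos rfl, if_neg (lt_irrefl _)]
      simp
    · rw [if_neg h.ne', if_neg (by omega), zero_add, Real.norm_eq_abs]
      have h7 := D.w_bound n t x
      have h8 := D.δ_tail h
      have h9 : |t| * (|D.δ n| * (4 ^ n * Bd n)) ≤ |t| * ((1 / 2) ^ (n + 2) * |D.δ N|) :=
        mul_le_mul_of_nonneg_left h8 (abs_nonneg _)
      refine h7.trans (h9.trans (le_of_eq ?_))
      rw [abs_of_pos ht0]
      have := D.tN_δ N
      calc t * ((1 / 2) ^ (n + 2) * |D.δ N|) = (1 / 2) ^ (n + 2) * (t * |D.δ N|) := by ring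
        _ = (1 / 2) ^ (n + 3) := by rw [this, pow_succ _ (n + 2)]

lemma sin_half (v : ℝ) (n : ℕ) : Real.sin (2 * Real.pi * (v + D.tN n * D.δ n)) =
    -Real.sin (2 * Real.pi * v) := by
  have h1 := D.tN_δ n
  rcases le_total 0 (D.δ n) with h | h
  · rw [abs_of_nonneg h] at h1
    rw [h1, mul_add]
    have : 2 * Real.pi * (1 / 2) = Real.pi := by ring
    rw [this, Real.sin_add_pi]
  · rw [abs_of_nonpos h] at h1
    have h2 : D.tN n * D.δ n = -(1 / 2) := by linarith
    rw [h2, mul_add]
    have : 2 * Real.pi * (-(1 / 2)) = -Real.pi := by ring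
    rw [this, ← sub_eq_add_neg, Real.sin_sub_pi]

/-- the points whose `N`-th phase is in the lower half -/
def Low (N : ℕ) : Set NilM := {x | 2 ^ N * Real.sin (2 * Real.pi * D.v N x) ≤ -(1 / 2)}

lemma w_low {N : ℕ} {x : NilM} (hx : x ∈ D.Low N) : D.w N (D.tN N) x = 4 ^ N := by
  rw [D.w_eq]
  have h1 : U N (D.v N x) = 0 := U_zero hx
  have h2 : U N (D.v N x + D.tN N * D.δ N) = 1 := by
    apply U_one
    rw [D.sin_half]
    have : 2 ^ N * Real.sin (2 * Real.pi * D.v N x) ≤ -(1 / 2) := hx
    linarith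
  rw [h1, h2]; ring

lemma low_measure (N : ℕ) : 1 / 4 ≤ haar.real (D.Low N) := by
  have hq : (D.q N : ℝ) ≠ 0 := by exact_mod_cast D.hq N
  let Up : Set NilM := {x | 1 / 2 ≤ 2 ^ N * Real.sin (2 * Real.pi * D.v N x)}
  let Mid : Set NilM := {x | |Real.sin (2 * Real.pi * D.v N x)| < (1 / 2) ^ (N + 1)}
  have hMid : haar.real Mid ≤ 1 / 2 := by
    have h1 : haar Mid ≤ ENNReal.ofReal ((1 / 2) ^ (N + 1)) := by
      simp only [Mid]
      rw [D.haar_phase N (P := fun v => |Real.sin (2 * Real.pi * v)| < (1 / 2) ^ (N + 1))]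
      · exact volume_small (by positivity)
      · intro v; rw [sin_per]
      · exact measurableSet_lt (by fun_prop) measurable_const
    rw [measureReal_def]
    refine (ENNReal.toReal_le_of_le_ofReal (by positivity) h1).trans ?_
    calc (1 / 2 : ℝ) ^ (N + 1) ≤ (1 / 2) ^ 1 :=
          pow_le_pow_of_le_one (by norm_num) (by norm_num) (by omega)
      _ = 1 / 2 := by norm_num
  have hUL : haar.real Up = haar.real (D.Low N) := by
    have hmeas : MeasurableSet Up := by
      have : Measurable (fun x : NilM => Real.sin (2 * Real.pi * D.v N x)) := by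
        refine measurable_of_lift ?_
        have hp : Function.Periodic (fun v : ℝ => Real.sin (2 * Real.pi * v)) 1 := sin_per
        have e : (fun g : Heis => Real.sin (2 * Real.pi * D.v N (pr g))) =
            fun g : Heis => Real.sin (2 * Real.pi * (D.q N * g.y - D.p N * g.x)) := by
          funext g
          exact D.per_rep' hp N g
        rw [e]
        exact (Real.continuous_sin.comp (continuous_const.mul
          ((continuous_const.mul continuous_y).sub (continuous_const.mul continuous_x)))).measurable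
      exact measurableSet_le measurable_const (this.const_mul _)
    have h1 := (mp_rmul (Heis.mk 0 (1 / (2 * D.q N)) 0)).measure_preimage hmeas.nullMeasurableSet
    rw [measureReal_def, measureReal_def, ← h1]
    congr 2
    ext x
    simp only [Up, Low, mem_preimage, mem_ofPred_eq]
    obtain ⟨g, rfl⟩ := pr_surjective x
    have hp : Function.Periodic (fun v : ℝ => Real.sin (2 * Real.pi * v)) 1 := sin_per
    have e1 : Real.sin (2 * Real.pi * D.v N (pr g)) =
        Real.sin (2 * Real.pi * (D.q N * g.y - D.p N * g.x)) := D.per_rep' hp N g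
    have e2 : Real.sin (2 * Real.pi * D.v N (rmul (Heis.mk 0 (1 / (2 * D.q N)) 0) (pr g))) =
        - Real.sin (2 * Real.pi * (D.q N * g.y - D.p N * g.x)) := by
      rw [rmul_pr]
      have h5 : Real.sin (2 * Real.pi * D.v N (pr (g * Heis.mk 0 (1 / (2 * D.q N)) 0))) =
          Real.sin (2 * Real.pi * (D.q N * (g * Heis.mk 0 (1 / (2 * D.q N)) 0).y -
            D.p N * (g * Heis.mk 0 (1 / (2 * D.q N)) 0).x)) :=
        D.per_rep' hp N (g * Heis.mk 0 (1 / (2 * D.q N)) 0)
      rw [h5, ← Real.sin_add_pi]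
      congr 1
      simp only [mul_x, mul_y, x_mk, y_mk]
      field_simp
      ring
    rw [e1, e2]
    constructor <;> intro h <;> linarith
  have hcov : (univ : Set NilM) ⊆ D.Low N ∪ (Up ∪ Mid) := by
    intro x _
    by_cases h1 : 2 ^ N * Real.sin (2 * Real.pi * D.v N x) ≤ -(1 / 2)
    · exact Or.inl h1
    by_cases h2 : 1 / 2 ≤ 2 ^ N * Real.sin (2 * Real.pi * D.v N x)
    · exact Or.inr (Or.inl h2)
    right; right
    push Not at h1 h2
    show |Real.sin (2 * Real.pi * D.v N x)| < (1 / 2) ^ (N + 1)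
    have h3 : |2 ^ N * Real.sin (2 * Real.pi * D.v N x)| < 1 / 2 := abs_lt.2 ⟨h1, h2⟩
    rw [abs_mul, abs_of_pos (by positivity : (0 : ℝ) < 2 ^ N)] at h3
    have h4 : (1 / 2 : ℝ) ^ (N + 1) = (1 / 2) / 2 ^ N := by
      rw [pow_succ, one_div, inv_pow]; field_simp
    rw [h4, lt_div_iff₀ (by positivity), mul_comm]
    exact h3
  have h1 : (1 : ℝ) ≤ haar.real (D.Low N) + (haar.real Up + haar.real Mid) := by
    have h2 : haar.real (univ : Set NilM) = 1 := by simp
    rw [← h2]
    refine (measureReal_mono hcov).trans ((measureReal_union_le _ _).trans ?_)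
    gcongr
    exact measureReal_union_le _ _
  rw [hUL] at h1
  linarith

/-- The function `α` is not measurably cohomologous to a constant along the nilflow. -/
theorem nontrivial (c : ℝ) (u : NilM → ℝ) (hu : Measurable u)
    (h : ∀ t : ℝ, ∀ᵐ x ∂haar, u (fl β t x) - u x = ∫ s in (0 : ℝ)..t, (D.al (fl β s x) - c)) :
    False := by
  obtain ⟨K, hK0, hK⟩ := tight hu
  have hint : ∀ t x, ∫ s in (0 : ℝ)..t, (D.al (fl β s x) - c) = D.I t x + (1 - c) * t := by
    intro t x
    rw [intervalIntegral.integral_sub ((D.continuous_al_orbit x).intervalIntegrable _ _)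
      (continuous_const.intervalIntegrable _ _)]
    have := D.clk_eq t x
    unfold clk at this
    rw [this]
    simp
    ring
  -- the set of large differences is small at every time
  have hsmall : ∀ t : ℝ, haar.real {x | 2 * K < |u (fl β t x) - u x|} < 1 / 4 := by
    intro t
    have h1 : {x | 2 * K < |u (fl β t x) - u x|} ⊆ (fl β t) ⁻¹' {x | K < |u x|} ∪ {x | K < |u x|} := by
      intro x hx
      by_contra hne
      simp only [mem_union, mem_preimage, mem_ofPred_eq, not_or, not_lt] at hne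
      have h2 : 2 * K < |u (fl β t x) - u x| := hx
      have := abs_sub (u (fl β t x)) (u x)
      linarith [hne.1, hne.2]
    have h2 : haar.real ((fl β t) ⁻¹' {x | K < |u x|}) = haar.real {x | K < |u x|} := by
      rw [measureReal_def, measureReal_def]
      rw [(inv_haar β t).measure_preimage (measurableSet_lt measurable_const hu.abs).nullMeasurableSet]
    calc haar.real {x | 2 * K < |u (fl β t x) - u x|} ≤ _ := measureReal_mono h1
      _ ≤ _ := measureReal_union_le _ _
      _ < 1 / 4 := by rw [h2]; linarith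
  -- at the times t_N it is large
  have hlarge : ∃ N, ∀ x ∈ D.Low N, 2 * K < |D.I (D.tN N) x + (1 - c) * D.tN N| := by
    by_cases hc : c = 1
    · subst hc
      obtain ⟨N, hN⟩ := pow_unbounded_of_one_lt (4 * K + 1) (by norm_num : (1 : ℝ) < 4)
      refine ⟨N, fun x hx => ?_⟩
      have h1 := D.I_approx N x
      rw [D.w_low hx] at h1
      rw [sub_self, zero_mul, add_zero]
      have h2 := (abs_le.1 h1).1
      have h3 : 2 * K < D.I (D.tN N) x := by linarith
      exact h3.trans_le (le_abs_self _)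
    · have hc' : 0 < |1 - c| := abs_pos.2 (sub_ne_zero.2 (Ne.symm hc))
      obtain ⟨N1, hN1⟩ := pow_unbounded_of_one_lt (2 * K + 1) (by norm_num : (1 : ℝ) < 4)
      obtain ⟨N2, hN2⟩ := pow_unbounded_of_one_lt (3 / |1 - c|) (by norm_num : (1 : ℝ) < 2)
      set N := max N1 N2
      refine ⟨N, fun x _ => ?_⟩
      have h1 := D.I_approx N x
      have h2 := D.w_bound' N (D.tN N) x
      have h3 := D.tN_large N
      have h4 : (2 : ℝ) * K + 1 < 4 ^ N :=
        hN1.trans_le (pow_le_pow_right₀ (by norm_num) (le_max_left _ _))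
      have h5 : 3 / |1 - c| < 2 ^ N :=
        hN2.trans_le (pow_le_pow_right₀ (by norm_num) (le_max_right _ _))
      rw [div_lt_iff₀ hc'] at h5
      have h6 : |(1 - c) * D.tN N| = |1 - c| * D.tN N := by
        rw [abs_mul, abs_of_pos (D.tN_pos N)]
      have h7 : |1 - c| * (2 ^ (N + 1) * 4 ^ N) ≤ |1 - c| * D.tN N :=
        mul_le_mul_of_nonneg_left h3 hc'.le
      have h8 : 6 * 4 ^ N ≤ |1 - c| * (2 ^ (N + 1) * 4 ^ N) := by
        have : (6 : ℝ) ≤ |1 - c| * 2 ^ (N + 1) := by rw [pow_succ]; linarith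
        calc (6 : ℝ) * 4 ^ N ≤ (|1 - c| * 2 ^ (N + 1)) * 4 ^ N := by gcongr
          _ = _ := by ring
      have h9 : |D.I (D.tN N) x| ≤ 4 ^ N + (4 ^ N / 3 + 1 / 4) := by
        have : D.I (D.tN N) x = D.w N (D.tN N) x + (D.I (D.tN N) x - D.w N (D.tN N) x) := by ring
        rw [this]
        exact (abs_add_le _ _).trans (add_le_add h2 h1)
      have h10 : |(1 - c) * D.tN N| - |D.I (D.tN N) x| ≤ |D.I (D.tN N) x + (1 - c) * D.tN N| := by
        have := abs_sub_abs_le_abs_sub ((1 - c) * D.tN N) (-(D.I (D.tN N) x))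
        rw [abs_neg, sub_neg_eq_add, add_comm ((1 - c) * D.tN N)] at this
        exact this
      have h11 : (0 : ℝ) < 4 ^ N := by positivity
      linarith
  obtain ⟨N, hN⟩ := hlarge
  have h1 := hsmall (D.tN N)
  have h2 := D.low_measure N
  have h3 : haar.real (D.Low N) ≤ haar.real {x | 2 * K < |u (fl β (D.tN N) x) - u x|} := by
    rw [measureReal_def, measureReal_def]
    refine ENNReal.toReal_mono (measure_ne_top _ _) (measure_mono_ae ?_)
    filter_upwards [h (D.tN N)] with x hx hxL
    show 2 * K < |u (fl β (D.tN N) x) - u x|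
    rw [hx, hint]
    exact hN x hxL
  linarith

end Freq

end Pool.Agent.U610.Nil
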