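import Mathlib

/-!
Time changes of flows, weak mixing and mixing: definitions.
-/

open Set Topology Filter MeasureTheory
open scoped ENNReal

namespace Pool.Agent.U610.Nil

variable {M : Type*}

/-- `∫_0^v α (φ_s x) ds`. -/
noncomputable def clock (φ : ℝ → M → M) (α : M → ℝ) (x : M) (v : ℝ) : ℝ :=
  ∫ s in (0 : ℝ)..v, α (φ s x)

/-- The time change of the flow `φ` given by the positive function `α` (the flow generated by
`X / α` if `φ` is generated by the vector field `X`): `φ~_t (x) = φ_v (x)`, where `v = v (x, t)` is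
the solution of `∫_0^v α (φ_s x) ds = t`. -/
noncomputable def timeChange (φ : ℝ → M → M) (α : M → ℝ) (t : ℝ) (x : M) : M :=
  φ (Function.invFun (clock φ α x) t) x

/-- The probability measure proportional to `α dμ`. -/
noncomputable def changedMeasure [MeasurableSpace M] (μ : Measure M) (α : M → ℝ) : Measure M :=
  (∫⁻ x, ENNReal.ofReal (α x) ∂μ)⁻¹ • μ.withDensity (fun x => ENNReal.ofReal (α x))

/-- The time change is measurably trivial: `α` is measurably cohomologous to a constant along the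
flow `φ`. -/
def MeasurablyTrivial [MeasurableSpace M] (μ : Measure M) (φ : ℝ → M → M) (α : M → ℝ) : Prop :=
  ∃ (c : ℝ) (u : M → ℝ), Measurable u ∧
    ∀ t : ℝ, ∀ᵐ x ∂μ, u (φ t x) - u x = ∫ s in (0 : ℝ)..t, (α (φ s x) - c)

/-- Weak mixing of the flow `ψ` with invariant probability measure `ν`:
`(1/t) ∫_0^t |ν (ψ_s A ∩ B) - ν (A) ν (B)| ds → 0` as `t → ∞`, for all measurable sets `A`, `B`. -/
def WeaklyMixing [MeasurableSpace M] (ν : Measure M) (ψ : ℝ → M → M) : Prop :=
  ∀ A B : Set M, MeasurableSet A → MeasurableSet B →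
    Tendsto (fun t : ℝ => (∫⁻ s in Ioc 0 t,
      ENNReal.ofReal |ν.real (ψ s '' A ∩ B) - ν.real A * ν.real B|) / ENNReal.ofReal t) atTop (𝓝 0)

/-- Mixing of the flow `ψ` with invariant probability measure `ν`:
`ν (ψ_t A ∩ B) → ν (A) ν (B)` as `t → ∞`, for all measurable sets `A`, `B`. -/
def Mixing [MeasurableSpace M] (ν : Measure M) (ψ : ℝ → M → M) : Prop :=
  ∀ A B : Set M, MeasurableSet A → MeasurableSet B →
    Tendsto (fun t : ℝ => ν.real (ψ t '' A ∩ B)) atTop (𝓝 (ν.real A * ν.real B))

end Pool.Agent.U610.Nil
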