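import Pool.Agent.U610.Nil.UE3
import Pool.Agent.U610.Nil.TCDefs

/-!
Time changes of the nilflow by continuous positive functions are measure preserving flows.
-/

open Set Topology Filter MeasureTheory
open Pool.Agent.R239.NilRet
open Pool.Agent.R239.NilRet.Heis
open scoped ENNReal

namespace Pool.Agent.U610.Nil

section

variable {β : ℝ} {α : NilM → ℝ}

lemma fl_joint (β : ℝ) : Continuous (fun p : NilM × ℝ => fl β p.2 p.1) := by
  have h2 : Continuous (fun p : NilM × ℝ => ((expH 1 β 0 p.2, p.1) : Heis × NilM)) := by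
    refine Continuous.prodMk ?_ continuous_fst
    unfold expH
    exact continuous_mk (by fun_prop) (by fun_prop) (by fun_prop)
  exact continuous_rmul_joint.comp h2

lemma orbit_cont (β : ℝ) (x : NilM) : Continuous (fun t => fl β t x) :=
  (fl_joint β).comp (continuous_const.prodMk continuous_id)

lemma fl_zero (β : ℝ) (x : NilM) : fl β 0 x = x := nilflow_zero _ _ _ x

/-- abbreviation for the clock of the nilflow -/
noncomputable abbrev ck (β : ℝ) (α : NilM → ℝ) (x : NilM) (v : ℝ) : ℝ := clock (fl β) α x v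

lemma ck_zero (x : NilM) : ck β α x 0 = 0 := by simp [ck, clock]

lemma ck_int (hα : Continuous α) (x : NilM) (a b : ℝ) :
    IntervalIntegrable (fun s => α (fl β s x)) volume a b :=
  (hα.comp (orbit_cont β x)).intervalIntegrable _ _

lemma ck_sub (hα : Continuous α) (x : NilM) (a b : ℝ) :
    ck β α x b - ck β α x a = ∫ s in a..b, α (fl β s x) := by
  unfold ck clock
  rw [intervalIntegral.integral_interval_sub_left (ck_int hα x _ _) (ck_int hα x _ _)]

lemma ck_deriv (hα : Continuous α) (x : NilM) (v : ℝ) :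
    HasDerivAt (ck β α x) (α (fl β v x)) v :=
  intervalIntegral.integral_hasDerivAt_right (ck_int hα x _ _)
    ((hα.comp (orbit_cont β x)).stronglyMeasurableAtFilter _ _) (hα.comp (orbit_cont β x)).continuousAt

lemma ck_cont (hα : Continuous α) (x : NilM) : Continuous (ck β α x) :=
  continuous_iff_continuousAt.2 fun v => (ck_deriv hα x v).continuousAt

lemma ck_lower (hα : Continuous α) {m : ℝ} (hm : ∀ x, m ≤ α x) (x : NilM) {a b : ℝ} (h : a ≤ b) :
    m * (b - a) ≤ ck β α x b - ck β α x a := by
  rw [ck_sub hα]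
  have h1 : ∫ _s in a..b, m = (b - a) * m := by simp
  rw [mul_comm, ← h1]
  exact intervalIntegral.integral_mono_on h (by simp) (ck_int hα x _ _) fun s _ => hm _

lemma ck_abs (hα : Continuous α) {m : ℝ} (hm : ∀ x, m ≤ α x) (x : NilM) (a b : ℝ) :
    m * |b - a| ≤ |ck β α x b - ck β α x a| := by
  rcases le_total a b with h | h
  · rw [abs_of_nonneg (sub_nonneg.2 h)]
    exact (ck_lower hα hm x h).trans (le_abs_self _)
  · rw [abs_sub_comm b a, abs_of_nonneg (sub_nonneg.2 h), abs_sub_comm]
    exact (ck_lower hα hm x h).trans (le_abs_self _)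

lemma ck_inj (hα : Continuous α) {m : ℝ} (hm0 : 0 < m) (hm : ∀ x, m ≤ α x) (x : NilM) :
    Function.Injective (ck β α x) := by
  intro a b hab
  have := ck_abs (β := β) hα hm x a b
  rw [hab, sub_self, abs_zero] at this
  have h1 : |b - a| ≤ 0 := by
    by_contra hne
    push Not at hne
    nlinarith
  have h2 := abs_nonpos_iff.1 h1
  linarith

lemma ck_surj (hα : Continuous α) {m : ℝ} (hm0 : 0 < m) (hm : ∀ x, m ≤ α x) (x : NilM) :
    Function.Surjective (ck β α x) := by
  refine (ck_cont hα x).surjective ?_ ?_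
  · refine tendsto_atTop_mono' atTop (f₁ := fun v => m * v) ?_ (tendsto_id.const_mul_atTop hm0)
    filter_upwards [eventually_ge_atTop 0] with v hv
    have := ck_lower (β := β) hα hm x hv
    rw [ck_zero, sub_zero, sub_zero] at this
    exact this
  · refine tendsto_atBot_mono' atBot (f₁ := fun v => m * v) (f₂ := ck β α x) ?_
      (tendsto_id.const_mul_atBot hm0)
    filter_upwards [eventually_le_atBot 0] with v hv
    have := ck_lower (β := β) hα hm x hv
    rw [ck_zero, zero_sub, zero_sub] at this
    linarith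

/-- the inverse clock -/
noncomputable def tau (β : ℝ) (α : NilM → ℝ) (x : NilM) (t : ℝ) : ℝ := Function.invFun (ck β α x) t

lemma ck_tau (hα : Continuous α) {m : ℝ} (hm0 : 0 < m) (hm : ∀ x, m ≤ α x) (x : NilM) (t : ℝ) :
    ck β α x (tau β α x t) = t :=
  Function.rightInverse_invFun (ck_surj hα hm0 hm x) t

lemma tau_ck (hα : Continuous α) {m : ℝ} (hm0 : 0 < m) (hm : ∀ x, m ≤ α x) (x : NilM) (v : ℝ) :
    tau β α x (ck β α x v) = v :=
  Function.leftInverse_invFun (ck_inj hα hm0 hm x) v

lemma tc_eq (t : ℝ) (x : NilM) : timeChange (fl β) α t x = fl β (tau β α x t) x := rfl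

lemma tc_ck (hα : Continuous α) {m : ℝ} (hm0 : 0 < m) (hm : ∀ x, m ≤ α x) (x : NilM) (v : ℝ) :
    timeChange (fl β) α (ck β α x v) x = fl β v x := by
  rw [tc_eq, tau_ck hα hm0 hm]

lemma ck_flow (hα : Continuous α) (x : NilM) (s v : ℝ) :
    ck β α (fl β s x) v = ck β α x (s + v) - ck β α x s := by
  rw [ck_sub hα]
  unfold ck clock
  simp only [fl_add]
  rw [intervalIntegral.integral_comp_add_right (fun r => α (fl β r x)) s, zero_add, add_comm v s]

lemma tc_add (hα : Continuous α) {m : ℝ} (hm0 : 0 < m) (hm : ∀ x, m ≤ α x) (s t : ℝ) (x : NilM) :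
    timeChange (fl β) α s (timeChange (fl β) α t x) = timeChange (fl β) α (s + t) x := by
  set v := tau β α x t with hv
  set y := fl β v x with hy
  set w := tau β α y s with hw
  have h1 : ck β α x (v + w) = s + t := by
    have h2 := ck_flow (β := β) hα x v w
    have h3 := ck_tau (β := β) hα hm0 hm y s
    have h4 := ck_tau (β := β) hα hm0 hm x t
    rw [← hw, hy, h2] at h3
    rw [← hv] at h4
    linarith
  have h2 : timeChange (fl β) α (s + t) x = fl β (v + w) x := by
    rw [← h1]; exact tc_ck hα hm0 hm x _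
  rw [h2, tc_eq t x, ← hv, ← hy, tc_eq s y, ← hw, hy, fl_add, add_comm]

lemma tau_cont_t (hα : Continuous α) {m : ℝ} (hm0 : 0 < m) (hm : ∀ x, m ≤ α x) (x : NilM) :
    Continuous (tau β α x) := by
  have h1 : LipschitzWith (Real.toNNReal m⁻¹) (tau β α x) := by
    refine LipschitzWith.of_dist_le_mul fun a b => ?_
    rw [Real.coe_toNNReal _ (by positivity), Real.dist_eq, Real.dist_eq]
    have := ck_abs (β := β) hα hm x (tau β α x b) (tau β α x a)
    rw [ck_tau hα hm0 hm, ck_tau hα hm0 hm] at this
    rw [inv_mul_eq_div, le_div_iff₀ hm0]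
    linarith
  exact h1.continuous

lemma ck_cont_x (hα : Continuous α) (v : ℝ) : Continuous (fun x => ck β α x v) :=
  intervalIntegral.continuous_parametric_intervalIntegral_of_continuous'
    (f := fun (x : NilM) (s : ℝ) => α (fl β s x)) (hα.comp (fl_joint β)) 0 v

lemma tau_cont_x (hα : Continuous α) {m : ℝ} (hm0 : 0 < m) (hm : ∀ x, m ≤ α x) (t : ℝ) :
    Continuous (fun x => tau β α x t) := by
  refine continuous_iff_continuousAt.2 fun x₀ => ?_
  rw [ContinuousAt, tendsto_iff_dist_tendsto_zero]
  have h1 : Tendsto (fun x => m⁻¹ * |ck β α x (tau β α x₀ t) - ck β α x₀ (tau β α x₀ t)|) (𝓝 x₀) (𝓝 0) := by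
    have h2 : Tendsto (fun x => ck β α x (tau β α x₀ t)) (𝓝 x₀) (𝓝 (ck β α x₀ (tau β α x₀ t))) :=
      (ck_cont_x hα _).continuousAt
    have h3 := ((h2.sub_const (ck β α x₀ (tau β α x₀ t))).abs).const_mul m⁻¹
    rwa [sub_self, abs_zero, mul_zero] at h3
  refine squeeze_zero (fun _ => dist_nonneg) (fun x => ?_) h1
  rw [Real.dist_eq, inv_mul_eq_div, le_div_iff₀ hm0]
  have := ck_abs (β := β) hα hm x (tau β α x t) (tau β α x₀ t)
  rw [ck_tau hα hm0 hm x t] at this
  rw [ck_tau hα hm0 hm x₀ t, abs_sub_comm (tau β α x t), mul_comm]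
  exact this

lemma tc_cont (hα : Continuous α) {m : ℝ} (hm0 : 0 < m) (hm : ∀ x, m ≤ α x) (t : ℝ) :
    Continuous (timeChange (fl β) α t) :=
  (fl_joint β).comp (continuous_id.prodMk (tau_cont_x hα hm0 hm t))

lemma tc_cont_t (hα : Continuous α) {m : ℝ} (hm0 : 0 < m) (hm : ∀ x, m ≤ α x) (x : NilM) :
    Continuous (fun t => timeChange (fl β) α t x) :=
  (orbit_cont β x).comp (tau_cont_t hα hm0 hm x)

lemma swapR {ν : Measure NilM} [IsProbabilityMeasure ν] {T : ℝ} (hT : 0 ≤ T) (G : NilM → ℝ → ℝ)
    (hG : Continuous (Function.uncurry G)) :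
    ∫ x, (∫ b in (0 : ℝ)..T, G x b) ∂ν = ∫ b in (0 : ℝ)..T, (∫ x, G x b ∂ν) := by
  simp only [intervalIntegral.integral_of_le hT]
  refine integral_integral_swap ?_
  have h1 : IntegrableOn (Function.uncurry G) (univ ×ˢ Icc (0 : ℝ) T) (ν.prod volume) :=
    hG.continuousOn.integrableOn_compact (isCompact_univ.prod isCompact_Icc)
  have h2 : IntegrableOn (Function.uncurry G) (univ ×ˢ Ioc (0 : ℝ) T) (ν.prod volume) :=
    h1.mono_set (prod_mono le_rfl Ioc_subset_Icc_self)
  rw [IntegrableOn, ← Measure.prod_restrict, Measure.restrict_univ] at h2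
  exact h2

/-- integrals of continuous functions against `α dμ` are invariant -/
lemma tc_integral (hα : Continuous α) {m : ℝ} (hm0 : 0 < m) (hm : ∀ x, m ≤ α x) (t : ℝ)
    {f : NilM → ℝ} (hf : Continuous f) :
    ∫ x, f (timeChange (fl β) α t x) * α x ∂haar = ∫ x, f x * α x ∂haar := by
  set ψ := timeChange (fl β) α with hψ
  obtain ⟨C, hC⟩ := isCompact_univ.exists_bound_of_continuousOn hf.continuousOn
  have hC' : ∀ x, |f x| ≤ C := fun x => hC x trivial
  have hψt : Continuous (ψ t) := tc_cont hα hm0 hm t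
  set J := ∫ x, (f (ψ t x) - f x) * α x ∂haar with hJ
  have hJ0 : ∫ x, f (ψ t x) * α x ∂haar - ∫ x, f x * α x ∂haar = J := by
    rw [hJ, ← integral_sub]
    · congr 1; funext x; ring
    · exact integ ((hf.comp hψt).mul hα)
    · exact integ (hf.mul hα)
  -- the estimate for every T
  have key : ∀ T : ℝ, 0 ≤ T → |T * J| ≤ 2 * (C * |t|) := by
    intro T hT
    have e1 : ∀ s, ∫ x, (f (ψ t (fl β s x)) - f (fl β s x)) * α (fl β s x) ∂haar = J := by
      intro s
      have h1 := integral_map (μ := haar) (continuous_fl β s).measurable.aemeasurable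
        (f := fun x => (f (ψ t x) - f x) * α x)
        (((hf.comp hψt).sub hf).mul hα).aestronglyMeasurable
      rw [(inv_haar β s).map_eq] at h1
      exact h1.symm
    have hjc : Continuous (Function.uncurry fun (x : NilM) (s : ℝ) =>
        (f (ψ t (fl β s x)) - f (fl β s x)) * α (fl β s x)) := by
      have := fl_joint β
      exact (((hf.comp hψt).comp this).sub (hf.comp this)).mul (hα.comp this)
    have e2 : ∫ x, (∫ s in (0 : ℝ)..T, (f (ψ t (fl β s x)) - f (fl β s x)) * α (fl β s x)) ∂haar =
        T * J := by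
      rw [swapR hT _ hjc]
      simp only [e1]
      simp
    have e3 : ∀ x, |∫ s in (0 : ℝ)..T, (f (ψ t (fl β s x)) - f (fl β s x)) * α (fl β s x)| ≤
        2 * (C * |t|) := by
      intro x
      set G : ℝ → ℝ := fun r => f (ψ r x) with hG
      have hGc : Continuous G := hf.comp (tc_cont_t hα hm0 hm x)
      have e4 : ∀ s, (f (ψ t (fl β s x)) - f (fl β s x)) * α (fl β s x) =
          ((fun r => G (t + r) - G r) ∘ (ck β α x)) s * α (fl β s x) := by
        intro s
        have h1 : fl β s x = ψ (ck β α x s) x := (tc_ck hα hm0 hm x s).symm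
        have h2 : f (ψ t (fl β s x)) = G (t + ck β α x s) := by
          rw [h1, hψ, tc_add hα hm0 hm]
        have h3 : f (fl β s x) = G (ck β α x s) := by rw [h1]
        simp only [Function.comp_apply]
        rw [h2, h3]
      simp only [e4]
      have hGt : Continuous (fun r => G (t + r) - G r) :=
        (hGc.comp (continuous_const.add continuous_id)).sub hGc
      rw [intervalIntegral.integral_comp_mul_deriv (g := fun r => G (t + r) - G r)
        (fun s _ => ck_deriv hα x s) (hα.comp (orbit_cont β x)).continuousOn hGt, ck_zero]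
      set R := ck β α x T
      have hi : ∀ a b, IntervalIntegrable G volume a b := fun a b => hGc.intervalIntegrable a b
      have hGt2 : Continuous (fun r => G (t + r)) := hGc.comp (continuous_const.add continuous_id)
      rw [intervalIntegral.integral_sub (hGt2.intervalIntegrable _ _)
        (hi _ _), intervalIntegral.integral_comp_add_left G t, add_zero]
      have h5 : ∫ r in t..t + R, G r = (∫ r in (0 : ℝ)..R, G r) + (∫ r in R..R + t, G r) -
          ∫ r in (0 : ℝ)..t, G r := by
        have h6 := intervalIntegral.integral_add_adjacent_intervals (hi 0 R) (hi R (R + t))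
        have h7 := intervalIntegral.integral_add_adjacent_intervals (hi 0 t) (hi t (t + R))
        rw [add_comm R t] at h6 ⊢
        linarith
      rw [h5]
      have h8 : |∫ r in R..R + t, G r| ≤ C * |t| := by
        have := intervalIntegral.norm_integral_le_of_norm_le_const (a := R) (b := R + t) (f := G)
          (C := C) (fun r _ => hC' _)
        rwa [add_sub_cancel_left] at this
      have h9 : |∫ r in (0 : ℝ)..t, G r| ≤ C * |t| := by
        have := intervalIntegral.norm_integral_le_of_norm_le_const (a := 0) (b := t) (f := G)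
          (C := C) (fun r _ => hC' _)
        rwa [sub_zero] at this
      have e5 : (∫ r in (0 : ℝ)..R, G r) + (∫ r in R..R + t, G r) - (∫ r in (0 : ℝ)..t, G r) -
          (∫ r in (0 : ℝ)..R, G r) = (∫ r in R..R + t, G r) - ∫ r in (0 : ℝ)..t, G r := by ring
      rw [e5]
      refine (abs_sub _ _).trans ?_
      linarith
    rw [← e2]
    have := norm_integral_le_of_norm_le_const (μ := haar) (C := 2 * (C * |t|))
      (f := fun x => ∫ s in (0 : ℝ)..T, (f (ψ t (fl β s x)) - f (fl β s x)) * α (fl β s x))
      (Eventually.of_forall e3)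
    simpa using this
  have hJz : J = 0 := by
    by_contra hne
    have hJ1 : 0 < |J| := abs_pos.2 hne
    have hC0 : 0 ≤ C := (abs_nonneg _).trans (hC' (pr 1))
    have h1 := key ((2 * (C * |t|) + 1) / |J|) (by positivity)
    rw [abs_mul, abs_of_nonneg (by positivity : 0 ≤ (2 * (C * |t|) + 1) / |J|),
      div_mul_cancel₀ _ hJ1.ne'] at h1
    linarith
  rw [hJz] at hJ0
  linarith

lemma changed_prob (hα : Continuous α) {m : ℝ} (hm0 : 0 < m) (hm : ∀ x, m ≤ α x) :
    IsProbabilityMeasure (changedMeasure haar α) := by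
  have h1 : ∫⁻ x, ENNReal.ofReal (α x) ∂haar ≠ ⊤ := (integ hα).lintegral_lt_top.ne
  have h0 : ∫⁻ x, ENNReal.ofReal (α x) ∂haar ≠ 0 := by
    have : ENNReal.ofReal m ≤ ∫⁻ x, ENNReal.ofReal (α x) ∂haar := by
      calc ENNReal.ofReal m = ∫⁻ _x : NilM, ENNReal.ofReal m ∂haar := by simp
        _ ≤ _ := lintegral_mono fun x => ENNReal.ofReal_le_ofReal (hm x)
    exact (lt_of_lt_of_le (ENNReal.ofReal_pos.2 hm0) this).ne'
  constructor
  unfold changedMeasure
  rw [Measure.smul_apply, withDensity_apply _ MeasurableSet.univ, Measure.restrict_univ, smul_eq_mul,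
    ENNReal.inv_mul_cancel h0 h1]

lemma changed_integral (hα : Continuous α) {m : ℝ} (hm0 : 0 < m) (hm : ∀ x, m ≤ α x)
    (f : NilM → ℝ) : ∫ x, f x ∂(changedMeasure haar α) =
      ((∫⁻ x, ENNReal.ofReal (α x) ∂haar)⁻¹).toReal * ∫ x, f x * α x ∂haar := by
  unfold changedMeasure
  have hme : Measurable (fun x => ENNReal.ofReal (α x)) :=
    ENNReal.measurable_ofReal.comp hα.measurable
  rw [integral_smul_measure, integral_withDensity_eq_integral_toReal_smul
    hme (Eventually.of_forall fun x => ENNReal.ofReal_lt_top), smul_eq_mul]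
  congr 2
  funext x
  rw [ENNReal.toReal_ofReal (hm0.le.trans (hm x)), smul_eq_mul, mul_comm]

/-- The time change preserves the measure `α dμ / ∫ α dμ`. -/
theorem tc_mp (hα : Continuous α) {m : ℝ} (hm0 : 0 < m) (hm : ∀ x, m ≤ α x) (t : ℝ) :
    MeasurePreserving (timeChange (fl β) α t) (changedMeasure haar α) (changedMeasure haar α) := by
  have hc := tc_cont (β := β) hα hm0 hm t
  have := changed_prob hα hm0 hm
  refine ⟨hc.measurable, ?_⟩
  have : TopologicalSpace.MetrizableSpace NilM := TopologicalSpace.metrizableSpace_of_t3_secondCountable _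
  let _ : MetricSpace NilM := TopologicalSpace.metrizableSpaceMetric NilM
  have : IsProbabilityMeasure (Measure.map (timeChange (fl β) α t) (changedMeasure haar α)) :=
    Measure.isProbabilityMeasure_map hc.measurable.aemeasurable
  refine ext_of_forall_integral_eq_of_IsFiniteMeasure fun f => ?_
  rw [integral_map hc.measurable.aemeasurable f.continuous.aestronglyMeasurable,
    changed_integral hα hm0 hm, changed_integral hα hm0 hm, tc_integral hα hm0 hm t f.continuous]

end

end Pool.Agent.U610.Nil
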