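import Pool.Agent.U610.Nil.TC5
import Pool.Agent.U610.Nil.TC6

/-!
The time change is not weakly mixing and not mixing.
-/

open Set Topology Filter MeasureTheory
open Pool.Agent.R239.NilRet
open Pool.Agent.R239.NilRet.Heis
open scoped ContDiff ENNReal

namespace Pool.Agent.U610.Nil

/-- the half open quarter plane -/
def QP : Set ℂ := {z | 0 < z.re ∧ 0 ≤ z.im}

lemma quarter_cover {z : ℂ} (hz : z ≠ 0) :
    z ∈ QP ∨ z * (-Complex.I) ∈ QP ∨ z * (-1) ∈ QP ∨ z * Complex.I ∈ QP := by
  simp only [QP, mem_ofPred_eq, Complex.mul_re, Complex.mul_im, Complex.neg_re, Complex.neg_im,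
    Complex.I_re, Complex.I_im, Complex.one_re, Complex.one_im]
  have h : z.re ≠ 0 ∨ z.im ≠ 0 := by
    by_contra hc
    push Not at hc
    exact hz (Complex.ext hc.1 hc.2)
  rcases lt_trichotomy z.re 0 with h1 | h1 | h1
  · rcases lt_trichotomy z.im 0 with h2 | h2 | h2
    · right; right; left; constructor <;> linarith
    · right; right; left; constructor <;> linarith
    · right; left; constructor <;> linarith
  · rcases lt_trichotomy z.im 0 with h2 | h2 | h2
    · right; right; right; constructor <;> linarith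
    · rcases h with h | h <;> contradiction
    · right; left; constructor <;> linarith
  · rcases lt_trichotomy z.im 0 with h2 | h2 | h2
    · right; right; right; constructor <;> linarith
    · left; constructor <;> linarith
    · left; constructor <;> linarith

lemma cos_pos_of_QP {a : ℂ} {s : ℝ} (ha : a ∈ QP) (hb : E s * a ∈ QP) :
    0 < Real.cos (2 * Real.pi * s) := by
  obtain ⟨a1, a2⟩ := ha
  obtain ⟨b1, b2⟩ := hb
  rw [Complex.mul_re, E_re, E_im] at b1
  rw [Complex.mul_im, E_re, E_im] at b2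
  set c := Real.cos (2 * Real.pi * s)
  set d := Real.sin (2 * Real.pi * s)
  have h1 : 0 < (c * a.re - d * a.im) * a.re + (c * a.im + d * a.re) * a.im := by
    have := mul_pos b1 a1
    have := mul_nonneg b2 a2
    linarith
  have h2 : (c * a.re - d * a.im) * a.re + (c * a.im + d * a.re) * a.im =
      c * (a.re ^ 2 + a.im ^ 2) := by ring
  rw [h2] at h1
  have h3 : 0 < a.re ^ 2 + a.im ^ 2 := by positivity
  exact (pos_iff_pos_of_mul_pos h1).2 h3

lemma cos_nonpos_half {s : ℝ} (n : ℕ) (h1 : (n : ℝ) + 1 / 4 ≤ s) (h2 : s ≤ n + 3 / 4) :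
    Real.cos (2 * Real.pi * s) ≤ 0 := by
  have hp := Real.pi_pos
  have e : Real.cos (2 * Real.pi * s) = Real.cos (2 * Real.pi * (s - n)) := by
    rw [mul_sub, mul_comm (2 * Real.pi) (n : ℝ), Real.cos_sub_nat_mul_two_pi]
  rw [e]
  apply Real.cos_nonpos_of_pi_div_two_le_of_le
  · nlinarith
  · nlinarith

lemma measurable_QP : MeasurableSet QP := by
  refine MeasurableSet.inter ?_ ?_
  · exact measurableSet_lt measurable_const Complex.measurable_re
  · exact measurableSet_le measurable_const Complex.measurable_im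

namespace Freq

variable {β : ℝ} (D : Freq β)

/-- the quarter sets -/
def QS (w : ℂ) : Set NilM := {x | D.Psi x * w ∈ QP}

lemma measurable_QS (w : ℂ) : MeasurableSet (D.QS w) :=
  (D.measurable_Psi.mul_const w) measurable_QP

/-- the measure of the time change -/
noncomputable abbrev nu : Measure NilM := changedMeasure haar D.al

lemma nu_prob : IsProbabilityMeasure D.nu := changed_prob D.al_continuous (by norm_num) D.al_pos

lemma nu_ac : D.nu ≪ haar := by
  unfold nu changedMeasure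
  exact (Measure.smul_absolutelyContinuous).trans (withDensity_absolutelyContinuous _ _)

lemma exists_QS : ∃ w : ℂ, 0 < D.nu.real (D.QS w) := by
  have := D.nu_prob
  by_contra hc
  push Not at hc
  have h0 : ∀ w, D.nu (D.QS w) = 0 := by
    intro w
    have h1 := le_antisymm (hc w) measureReal_nonneg
    rwa [measureReal_eq_zero_iff (measure_ne_top _ _)] at h1
  have hcov : (univ : Set NilM) ⊆ D.QS 1 ∪ (D.QS (-Complex.I) ∪ (D.QS (-1) ∪ D.QS Complex.I)) := by
    intro x _
    rcases quarter_cover (D.Psi_ne_zero x) with h | h | h | h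
    · left
      show D.Psi x * 1 ∈ QP
      rwa [mul_one]
    · right; left; exact h
    · right; right; left; exact h
    · right; right; right; exact h
  have h1 : D.nu univ = 0 := by
    refine measure_mono_null hcov ?_
    simp [measure_union_null_iff, h0]
  rw [measure_univ] at h1
  exact one_ne_zero h1

lemma Psi_tc {x : NilM} {s : ℝ} (hx : timeChange (fl β) D.al s x ∈ D.Good) :
    D.Psi (timeChange (fl β) D.al s x) = E s * D.Psi x := by
  have hα := D.al_continuous
  have hm : ∀ x, (1 / 2 : ℝ) ≤ D.al x := D.al_pos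
  rw [tc_eq] at hx ⊢
  set v := tau β D.al x s with hv
  have h1 : ck β D.al x v = s := ck_tau hα (by norm_num) hm x s
  have h2 := D.Psi_flow hx (-v)
  have h3 : fl β (-v) (fl β v x) = x := by
    rw [fl_add, neg_add_cancel, fl_zero]
  have h4 : D.clk (-v) (fl β v x) = -s := by
    have h5 := ck_flow (β := β) hα x v (-v)
    rw [add_neg_cancel, ck_zero, h1, zero_sub] at h5
    exact h5
  rw [h3, h4, E_neg] at h2
  rw [h2, mul_inv_cancel_left₀ (E_ne_zero s)]

lemma null_inter (w : ℂ) {s : ℝ} (n : ℕ) (h1 : (n : ℝ) + 1 / 4 ≤ s) (h2 : s ≤ n + 3 / 4) :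
    D.nu.real (timeChange (fl β) D.al s '' D.QS w ∩ D.QS w) = 0 := by
  have := D.nu_prob
  rw [measureReal_eq_zero_iff (measure_ne_top _ _)]
  have h3 : ∀ᵐ x ∂D.nu, x ∈ D.Good := D.nu_ac.ae_le D.ae_good
  refine measure_mono_null ?_ h3
  rintro y ⟨⟨x, hx, rfl⟩, hy⟩ hg
  have h4 : timeChange (fl β) D.al s x ∈ D.Good := hg
  have h5 := D.Psi_tc h4
  have h6 : D.Psi (timeChange (fl β) D.al s x) * w ∈ QP := hy
  rw [h5, mul_assoc] at h6
  have h7 := cos_pos_of_QP (a := D.Psi x * w) hx h6
  exact absurd (cos_nonpos_half n h1 h2) (not_le.2 h7)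

/-- The time change is not mixing. -/
theorem not_mixing : ¬ Mixing D.nu (timeChange (fl β) D.al) := by
  intro h
  obtain ⟨w, hw⟩ := D.exists_QS
  have h1 := h _ _ (D.measurable_QS w) (D.measurable_QS w)
  have h2 : Tendsto (fun n : ℕ => (n : ℝ) + 1 / 2) atTop atTop :=
    tendsto_atTop_add_const_right _ _ tendsto_natCast_atTop_atTop
  have h3 := h1.comp h2
  have h4 : ((fun t : ℝ => D.nu.real (timeChange (fl β) D.al t '' D.QS w ∩ D.QS w)) ∘
      fun n : ℕ => (n : ℝ) + 1 / 2) = fun _ => 0 := by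
    funext n
    exact D.null_inter w n (by linarith) (by linarith)
  rw [h4] at h3
  have h5 := tendsto_nhds_unique h3 tendsto_const_nhds
  have h6 := mul_pos hw hw
  rw [h5] at h6
  exact lt_irrefl _ h6

lemma lint_lower (f : ℝ → ℝ≥0∞) (c : ℝ≥0∞)
    (hf : ∀ (n : ℕ) (s : ℝ), (n : ℝ) + 1 / 4 ≤ s → s ≤ n + 3 / 4 → f s = c) (N : ℕ) :
    N * (c / 2) ≤ ∫⁻ s in Ioc (0 : ℝ) N, f s := by
  induction N with
  | zero => simp
  | succ N ih =>
    have hun : Ioc (0 : ℝ) (N + 1 : ℕ) = Ioc (0 : ℝ) N ∪ Ioc (N : ℝ) (N + 1 : ℕ) := by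
      rw [Ioc_union_Ioc_eq_Ioc (Nat.cast_nonneg N) (by push_cast; linarith)]
    have hdis : Disjoint (Ioc (0 : ℝ) N) (Ioc (N : ℝ) (N + 1 : ℕ)) := by
      rw [Set.disjoint_left]
      rintro x ⟨-, h1⟩ ⟨h2, -⟩
      linarith
    rw [hun, lintegral_union measurableSet_Ioc hdis]
    have h1 : c / 2 ≤ ∫⁻ s in Ioc (N : ℝ) (N + 1 : ℕ), f s := by
      have hsub : Icc ((N : ℝ) + 1 / 4) (N + 3 / 4) ⊆ Ioc (N : ℝ) (N + 1 : ℕ) := by
        rintro x ⟨h1, h2⟩
        push_cast
        exact ⟨by linarith, by linarith⟩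
      refine le_trans ?_ (lintegral_mono_set hsub)
      have h2 : ∫⁻ s in Icc ((N : ℝ) + 1 / 4) (N + 3 / 4), f s =
          ∫⁻ _s in Icc ((N : ℝ) + 1 / 4) (N + 3 / 4), c :=
        setLIntegral_congr_fun measurableSet_Icc fun s hs => hf N s hs.1 hs.2
      rw [h2, setLIntegral_const, Real.volume_Icc]
      have h3 : (N : ℝ) + 3 / 4 - (N + 1 / 4) = 2⁻¹ := by ring
      rw [h3, ENNReal.ofReal_inv_of_pos (by norm_num), ENNReal.ofReal_ofNat, ENNReal.div_eq_inv_mul,
        mul_comm]
    calc ((N + 1 : ℕ) : ℝ≥0∞) * (c / 2) = N * (c / 2) + c / 2 := by push_cast; ring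
      _ ≤ _ := add_le_add ih h1

/-- The time change is not weakly mixing. -/
theorem not_weaklyMixing : ¬ WeaklyMixing D.nu (timeChange (fl β) D.al) := by
  intro h
  obtain ⟨w, hw⟩ := D.exists_QS
  set κ := D.nu.real (D.QS w) with hκ
  have h1 := h _ _ (D.measurable_QS w) (D.measurable_QS w)
  have h3 := h1.comp tendsto_natCast_atTop_atTop
  set c : ℝ≥0∞ := ENNReal.ofReal (κ * κ) with hc
  have hc0 : 0 < c := ENNReal.ofReal_pos.2 (mul_pos hw hw)
  have h4 : ∀ᶠ n : ℕ in atTop, c / 2 ≤ ((fun t : ℝ => (∫⁻ s in Ioc 0 t,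
      ENNReal.ofReal |D.nu.real (timeChange (fl β) D.al s '' D.QS w ∩ D.QS w) -
        D.nu.real (D.QS w) * D.nu.real (D.QS w)|) / ENNReal.ofReal t) ∘ Nat.cast) n := by
    filter_upwards [eventually_gt_atTop 0] with n hn
    have h5 := lint_lower (fun s => ENNReal.ofReal |D.nu.real (timeChange (fl β) D.al s '' D.QS w ∩ D.QS w) -
        D.nu.real (D.QS w) * D.nu.real (D.QS w)|) c (fun k s a b => by
          rw [D.null_inter w k a b, zero_sub, abs_neg, abs_of_nonneg (mul_nonneg measureReal_nonneg measureReal_nonneg)]) n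
    simp only [Function.comp_apply]
    rw [ENNReal.ofReal_natCast, ENNReal.le_div_iff_mul_le (Or.inl (by exact_mod_cast hn.ne'))
      (Or.inl (ENNReal.natCast_ne_top n)), mul_comm]
    exact h5
  have h5 := ge_of_tendsto h3 h4
  have h6 : c / 2 ≠ 0 := (ENNReal.half_pos hc0.ne').ne'
  exact h6 (le_antisymm h5 zero_le)

end Freq

end Pool.Agent.U610.Nil
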