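import Pool.Agent.U610.Nil.Basic

/-!
Unique ergodicity of the Heisenberg nilflows with irrational slope.
-/

open Set Topology Filter MeasureTheory
open Pool.Agent.R239.NilRet
open Pool.Agent.R239.NilRet.Heis

namespace Pool.Agent.U610.Nil

/-- `exp (t X)` for the element `X = (a, b, c)` of the Lie algebra of the Heisenberg group. -/
noncomputable def expH (a b c t : ℝ) : Heis := Heis.mk (t * a) (t * b) (t * c + t ^ 2 * (a * b) / 2)

/-- The nilflow `Γ g ↦ Γ g exp (t X)` generated by `X = (a, b, c)`. -/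
noncomputable def nilflow (a b c t : ℝ) : NilM → NilM := rmul (expH a b c t)

/-- The nilflow generated by `X = (1, β, 0)`. -/
noncomputable abbrev fl (β t : ℝ) : NilM → NilM := nilflow 1 β 0 t

lemma expH_add (a b c s t : ℝ) : expH a b c s * expH a b c t = expH a b c (s + t) := by
  apply Heis.ext
  · simp [expH]; ring
  · simp [expH]; ring
  · simp [expH]; ring

lemma expH_zero (a b c : ℝ) : expH a b c 0 = 1 := by
  apply Heis.ext <;> simp [expH]

lemma nilflow_add (a b c s t : ℝ) (x : NilM) :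
    nilflow a b c s (nilflow a b c t x) = nilflow a b c (s + t) x := by
  unfold nilflow
  rw [rmul_rmul, expH_add, add_comm]

lemma nilflow_zero (a b c : ℝ) (x : NilM) : nilflow a b c 0 x = x := by
  unfold nilflow
  rw [expH_zero, rmul_one]

section helpers

variable {ν : Measure NilM} [IsProbabilityMeasure ν]

lemma integ {E : Type*} [NormedAddCommGroup E] {f : NilM → E} (hf : Continuous f) :
    Integrable f ν :=
  integrableOn_univ.1 (hf.continuousOn.integrableOn_compact isCompact_univ)

lemma swap (G : NilM → ℝ → ℂ) (hG : Continuous (Function.uncurry G)) :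
    ∫ x, (∫ b in (0 : ℝ)..1, G x b) ∂ν = ∫ b in (0 : ℝ)..1, (∫ x, G x b ∂ν) := by
  have h01 : (0 : ℝ) ≤ 1 := zero_le_one
  simp only [intervalIntegral.integral_of_le h01]
  refine integral_integral_swap ?_
  have h1 : IntegrableOn (Function.uncurry G) (univ ×ˢ Icc (0 : ℝ) 1) (ν.prod volume) :=
    hG.continuousOn.integrableOn_compact (isCompact_univ.prod isCompact_Icc)
  have h2 : IntegrableOn (Function.uncurry G) (univ ×ˢ Ioc (0 : ℝ) 1) (ν.prod volume) :=
    h1.mono_set (prod_mono le_rfl Ioc_subset_Icc_self)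
  rw [IntegrableOn, ← Measure.prod_restrict, Measure.restrict_univ] at h2
  exact h2

omit [IsProbabilityMeasure ν] in
lemma mp_integral {T : NilM → NilM} (hc : Continuous T) (hT : MeasurePreserving T ν ν) {f : NilM → ℂ}
    (hf : Continuous f) : ∫ x, f (T x) ∂ν = ∫ x, f x ∂ν := by
  have h := integral_map (μ := ν) hc.measurable.aemeasurable (f := f)
    hf.aestronglyMeasurable
  rw [hT.map_eq] at h
  exact h.symm

end helpers

/-- Invariance of a measure under the flow of slope `β`. -/
def Inv (β : ℝ) (ν : Measure NilM) : Prop := ∀ t, MeasurePreserving (fl β t) ν ν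

lemma inv_haar (β : ℝ) : Inv β haar := fun _ => mp_rmul _

/-- Functions of central weight zero. -/
def Mode0 (f : NilM → ℂ) : Prop := ∀ (c : ℝ) (x : NilM), f (rmul (Heis.mk 0 0 c) x) = f x

lemma mode0_eq {f : NilM → ℂ} (h0 : Mode0 f) (a b c : ℝ) :
    f (pr (Heis.mk a b c)) = f (pr (Heis.mk a b 0)) := by
  have := h0 c (pr (Heis.mk a b 0))
  rw [rmul_pr, mk_mul_mk] at this
  rw [← this]
  congr 3 <;> ring

lemma mode0_mul {f : NilM → ℂ} (h0 : Mode0 f) (a b : ℝ) (g : Heis) :
    f (rmul (Heis.mk a b 0) (pr g)) = f (pr (Heis.mk (g.x + a) (g.y + b) 0)) := by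
  rw [← mode0_eq h0 (g.x + a) (g.y + b) (g.z + 0 + g.x * b)]
  rfl

lemma per1 {f : NilM → ℂ} (h0 : Mode0 f) (a b : ℝ) :
    f (pr (Heis.mk (a + 1) b 0)) = f (pr (Heis.mk a b 0)) := by
  have h1 : pr (Heis.mk ((1 : ℤ) : ℝ) ((0 : ℤ) : ℝ) ((0 : ℤ) : ℝ) * Heis.mk a b 0) =
      pr (Heis.mk a b 0) := pr_mul (mk_mem_Gam2 1 0 0) _
  rw [mk_mul_mk] at h1
  rw [← h1, mode0_eq h0 (((1 : ℤ) : ℝ) + a)]
  congr 3
  · push_cast; ring
  · push_cast; ring

lemma per2 {f : NilM → ℂ} (h0 : Mode0 f) (a b : ℝ) :
    f (pr (Heis.mk a (b + 1) 0)) = f (pr (Heis.mk a b 0)) := by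
  have h1 : pr (Heis.mk ((0 : ℤ) : ℝ) ((1 : ℤ) : ℝ) ((0 : ℤ) : ℝ) * Heis.mk a b 0) =
      pr (Heis.mk a b 0) := pr_mul (mk_mem_Gam2 0 1 0) _
  rw [mk_mul_mk] at h1
  rw [← h1, mode0_eq h0 (((0 : ℤ) : ℝ) + a)]
  congr 3
  · push_cast; ring
  · push_cast; ring

lemma continuous_sec {f : NilM → ℂ} (hf : Continuous f) :
    Continuous (fun p : ℝ × ℝ => f (pr (Heis.mk p.1 p.2 0))) :=
  hf.comp (continuous_pr.comp (continuous_mk continuous_fst continuous_snd continuous_const))

/-- The integral of a function of weight zero over the unit square. -/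
noncomputable def sqI (f : NilM → ℂ) : ℂ :=
  ∫ a in (0 : ℝ)..1, ∫ b in (0 : ℝ)..1, f (pr (Heis.mk a b 0))

lemma sq_shift {f : NilM → ℂ} (h0 : Mode0 f) (x : NilM) :
    ∫ a in (0 : ℝ)..1, ∫ b in (0 : ℝ)..1, f (rmul (Heis.mk a b 0) x) = sqI f := by
  obtain ⟨g, rfl⟩ := pr_surjective x
  simp only [mode0_mul h0]
  have h1 : ∀ a : ℝ, ∫ b in (0 : ℝ)..1, f (pr (Heis.mk a (g.y + b) 0)) =
      ∫ b in (0 : ℝ)..1, f (pr (Heis.mk a b 0)) := by
    intro a
    rw [intervalIntegral.integral_comp_add_left (fun b => f (pr (Heis.mk a b 0))) g.y, add_zero]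
    have hp : Function.Periodic (fun b : ℝ => f (pr (Heis.mk a b 0))) 1 := fun b => per2 h0 a b
    have := hp.intervalIntegral_add_eq g.y 0
    rw [zero_add] at this
    exact this
  simp only [h1]
  rw [intervalIntegral.integral_comp_add_left
    (fun a => ∫ b in (0 : ℝ)..1, f (pr (Heis.mk a b 0))) g.x, add_zero]
  have hp : Function.Periodic (fun a : ℝ => ∫ b in (0 : ℝ)..1, f (pr (Heis.mk a b 0))) 1 := by
    intro a
    simp only [per1 h0]
  have := hp.intervalIntegral_add_eq g.x 0
  rw [zero_add] at this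
  exact this

/-- A continuous function on the line with two incommensurable periods is constant. -/
lemma const_of_periods {h : ℝ → ℂ} (hc : Continuous h) {β : ℝ} (hβ : Irrational β)
    (h1 : ∀ b, h (b + 1) = h b) (h2 : ∀ b, h (b + β) = h b) (b : ℝ) : h b = h 0 := by
  let S : AddSubgroup ℝ :=
    { carrier := {s | ∀ b, h (b + s) = h b}
      add_mem' := by
        intro s t hs ht b
        rw [← add_assoc, ht, hs]
      zero_mem' := by intro b; simp
      neg_mem' := by
        intro s hs b
        have := hs (b + -s)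
        rw [← this]; congr 1; ring }
  have hcl : IsClosed (S : Set ℝ) := by
    have : (S : Set ℝ) = ⋂ b : ℝ, {s | h (b + s) = h b} := by
      ext s; simp only [mem_iInter]; rfl
    rw [this]
    exact isClosed_iInter fun b => isClosed_eq (hc.comp (continuous_const.add continuous_id))
      continuous_const
  have hd : Dense (AddSubgroup.closure {β, 1} : Set ℝ) :=
    dense_addSubgroupClosure_pair_iff.2 (by simpa using hβ)
  have hle : AddSubgroup.closure {β, 1} ≤ S := by
    rw [AddSubgroup.closure_le]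
    rintro s (rfl | rfl)
    · exact h2
    · exact h1
  have hd2 : Dense (S : Set ℝ) := hd.mono hle
  have hu : (S : Set ℝ) = univ := by rw [← hcl.closure_eq]; exact hd2.closure_eq
  have hb : b ∈ (S : Set ℝ) := by rw [hu]; trivial
  have := hb 0
  rwa [zero_add] at this

lemma lemA {β : ℝ} (hβ : Irrational β) {ν : Measure NilM} [IsProbabilityMeasure ν] (hν : Inv β ν)
    {f : NilM → ℂ} (hf : Continuous f) (h0 : Mode0 f) : ∫ x, f x ∂ν = sqI f := by
  set H : ℝ → ℝ → ℂ := fun a b => ∫ x, f (rmul (Heis.mk a b 0) x) ∂ν with hH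
  have hjc : Continuous (fun p : (ℝ × ℝ) × NilM => f (rmul (Heis.mk p.1.1 p.1.2 0) p.2)) := by
    have h2 : Continuous (fun p : (ℝ × ℝ) × NilM =>
        ((Heis.mk p.1.1 p.1.2 0, p.2) : Heis × NilM)) :=
      (continuous_mk (continuous_fst.comp continuous_fst) (continuous_snd.comp continuous_fst)
      continuous_const).prodMk continuous_snd
    exact hf.comp (continuous_rmul_joint.comp h2)
  have hHc : Continuous (fun p : ℝ × ℝ => H p.1 p.2) := by
    have := continuous_parametric_integral_of_continuous (μ := ν)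
      (f := fun (p : ℝ × ℝ) (x : NilM) => f (rmul (Heis.mk p.1 p.2 0) x)) hjc isCompact_univ
    simpa only [Measure.restrict_univ] using this
  have hfl : ∀ a b t, H (a + t) (b + t * β) = H a b := by
    intro a b t
    have h1 : ∀ x, f (rmul (Heis.mk (a + t) (b + t * β) 0) x) =
        f (rmul (Heis.mk a b 0) (fl β t x)) := by
      intro x
      obtain ⟨g, rfl⟩ := pr_surjective x
      show _ = f (rmul (Heis.mk a b 0) (pr (g * expH 1 β 0 t)))
      rw [mode0_mul h0, mode0_mul h0]
      simp only [expH, mul_x, mul_y, x_mk, y_mk]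
      congr 3 <;> ring
    simp only [hH, h1]
    exact mp_integral (f := fun x => f (rmul (Heis.mk a b 0) x)) (continuous_rmul _) (hν t)
      (hf.comp (continuous_rmul _))
  have hp1 : ∀ a b, H (a + 1) b = H a b := by
    intro a b
    simp only [hH]
    congr 1
    funext x
    obtain ⟨g, rfl⟩ := pr_surjective x
    rw [mode0_mul h0, mode0_mul h0, ← add_assoc, per1 h0]
  have hp2 : ∀ a b, H a (b + 1) = H a b := by
    intro a b
    simp only [hH]
    congr 1
    funext x
    obtain ⟨g, rfl⟩ := pr_surjective x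
    rw [mode0_mul h0, mode0_mul h0, ← add_assoc, per2 h0]
  have hc0 : ∀ b, H 0 b = H 0 0 := by
    refine const_of_periods (h := fun b => H 0 b) (hHc.comp (continuous_const.prodMk continuous_id))
      hβ (fun b => hp2 0 b) ?_
    intro b
    have h1 := hfl 0 b 1
    have h2 := hp1 0 (b + 1 * β)
    simp only [one_mul] at h1 h2
    rw [← h1, ← h2]
  have hc : ∀ a b, H a b = H 0 0 := by
    intro a b
    rw [← hc0 (b - a * β), ← hfl 0 (b - a * β) a]
    congr 1 <;> ring
  have h00 : H 0 0 = ∫ x, f x ∂ν := by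
    simp only [hH]
    congr 1
    funext x
    rw [show Heis.mk 0 0 0 = 1 from rfl, rmul_one]
  -- integrate over the square
  have hs : ∫ a in (0 : ℝ)..1, ∫ b in (0 : ℝ)..1, H a b = H 0 0 := by
    simp only [hc]
    simp
  rw [← h00, ← hs]
  have e1 : ∀ a, ∫ b in (0 : ℝ)..1, H a b =
      ∫ x, (∫ b in (0 : ℝ)..1, f (rmul (Heis.mk a b 0) x)) ∂ν := by
    intro a
    rw [swap (fun x b => f (rmul (Heis.mk a b 0) x))]
    exact hjc.comp ((continuous_const.prodMk continuous_snd).prodMk continuous_fst)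
  simp only [e1]
  rw [← swap (fun x a => ∫ b in (0 : ℝ)..1, f (rmul (Heis.mk a b 0) x))]
  · simp only [sq_shift h0]
    simp
  · refine intervalIntegral.continuous_parametric_intervalIntegral_of_continuous' ?_ 0 1
    exact hjc.comp (((continuous_snd.comp continuous_fst).prodMk continuous_snd).prodMk
      (continuous_fst.comp continuous_fst))

end Pool.Agent.U610.Nil
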