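import Pool.Agent.U610.Nil.UE

/-!
Unique ergodicity of the Heisenberg nilflows with irrational slope: functions of nonzero central
weight have integral zero for every invariant measure.
-/

open Set Topology Filter MeasureTheory
open Pool.Agent.R239.NilRet
open Pool.Agent.R239.NilRet.Heis
open scoped ComplexConjugate

namespace Pool.Agent.U610.Nil

/-- Functions of central weight `k`. -/
def ModeK (k : ℤ) (f : NilM → ℂ) : Prop := ∀ (c : ℝ) (x : NilM),
  f (rmul (Heis.mk 0 0 c) x) = Complex.exp (2 * Real.pi * Complex.I * (k * c)) * f x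

lemma continuous_fl (β t : ℝ) : Continuous (fl β t) := continuous_rmul _

lemma fl_add (β s t : ℝ) (x : NilM) : fl β s (fl β t x) = fl β (s + t) x := nilflow_add _ _ _ _ _ _

/-- commutation of the flow with the translation in the `y` direction -/
lemma comm_y (β s t : ℝ) (x : NilM) : fl β t (rmul (Heis.mk 0 s 0) x) =
    rmul (Heis.mk 0 0 (-(t * s))) (rmul (Heis.mk 0 s 0) (fl β t x)) := by
  unfold fl nilflow
  rw [rmul_rmul, rmul_rmul, rmul_rmul]
  congr 1
  apply Heis.ext <;> simp [expH] <;> ring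

lemma unif_small {f : NilM → ℂ} (hf : Continuous f) {ε : ℝ} (hε : 0 < ε) :
    ∃ δ > 0, ∀ s : ℝ, |s| < δ → ∀ x, ‖f (rmul (Heis.mk 0 s 0) x) - f x‖ ≤ ε := by
  have hc : Continuous (fun p : ℝ × NilM => f (rmul (Heis.mk 0 p.1 0) p.2)) := by
    have h2 : Continuous (fun p : ℝ × NilM => ((Heis.mk 0 p.1 0, p.2) : Heis × NilM)) :=
      (continuous_mk continuous_const continuous_fst continuous_const).prodMk continuous_snd
    exact hf.comp (continuous_rmul_joint.comp h2)
  let F : C(ℝ, C(NilM, ℂ)) := ContinuousMap.curry ⟨_, hc⟩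
  have h1 := Metric.continuous_iff.1 F.continuous 0 ε hε
  obtain ⟨δ, hδ, h⟩ := h1
  refine ⟨δ, hδ, fun s hs x => ?_⟩
  have h2 := h s (by simpa using hs)
  have h3 := (ContinuousMap.dist_lt_iff hε).1 h2 x
  have h4 : F 0 x = f x := by
    show f (rmul (Heis.mk 0 0 0) x) = f x
    rw [show Heis.mk 0 0 0 = 1 from rfl, rmul_one]
  rw [h4] at h3
  rw [dist_eq_norm] at h3
  exact h3.le

/-- correlations -/
noncomputable def rho (β : ℝ) (f : NilM → ℂ) (t : ℝ) : ℂ := ∫ x, f (fl β t x) * conj (f x) ∂haar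

lemma rho_small {β : ℝ} {k : ℤ} (hk : k ≠ 0) {f : NilM → ℂ} (hf : Continuous f) (hm : ModeK k f)
    {C : ℝ} (hC : ∀ x, ‖f x‖ ≤ C) {ε : ℝ} (hε : 0 < ε) :
    ∃ T > 0, ∀ t : ℝ, T ≤ t → ‖rho β f t‖ ≤ ε := by
  have hC0 : 0 ≤ C := (norm_nonneg _).trans (hC (pr 1))
  obtain ⟨δ, hδ, h⟩ := unif_small hf (ε := ε / (C + 1)) (by positivity)
  have hk' : (k : ℝ) ≠ 0 := by exact_mod_cast hk
  have hk1 : (1 : ℝ) ≤ |(k : ℝ)| := by
    have : (1 : ℤ) ≤ |k| := Int.one_le_abs hk
    exact_mod_cast this
  refine ⟨1 / δ, by positivity, fun t ht => ?_⟩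
  have ht0 : 0 < t := lt_of_lt_of_le (by positivity) ht
  set s : ℝ := 1 / (2 * k * t) with hs
  have hs1 : |s| < δ := by
    rw [hs, abs_div, abs_one, abs_mul, abs_mul, abs_two, abs_of_pos ht0, div_lt_iff₀ (by positivity)]
    have h1 : 1 ≤ δ * t := by
      rw [div_le_iff₀ hδ] at ht
      linarith
    nlinarith [mul_pos hδ ht0]
  have hexp : Complex.exp (2 * Real.pi * Complex.I * (k * ((-(t * s) : ℝ) : ℂ))) = -1 := by
    have : (2 * Real.pi * Complex.I * (k * ((-(t * s) : ℝ) : ℂ))) = -(Real.pi * Complex.I) := by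
      have h1 : (k : ℝ) * (-(t * s)) = -(1 / 2) := by
        rw [hs]; field_simp
      have h2 : (k : ℂ) * ((-(t * s) : ℝ) : ℂ) = ((-(1 / 2) : ℝ) : ℂ) := by
        rw [← h1]; push_cast; ring
      rw [h2]; push_cast; ring
    rw [this, Complex.exp_neg, Complex.exp_pi_mul_I]
    norm_num
  have hfc : Continuous (fun x => f (fl β t x)) := hf.comp (continuous_fl β t)
  have hYc : Continuous (rmul (Heis.mk 0 s 0)) := continuous_rmul _
  have e1 : rho β f t = - ∫ x, f (rmul (Heis.mk 0 s 0) (fl β t x)) *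
      conj (f (rmul (Heis.mk 0 s 0) x)) ∂haar := by
    unfold rho
    rw [← mp_integral (f := fun x => f (fl β t x) * conj (f x)) hYc (mp_rmul _)
      (hfc.mul (Complex.continuous_conj.comp hf)), ← integral_neg]
    congr 1
    funext x
    rw [comm_y, hm, hexp]
    ring
  have e2 : 2 * rho β f t = ∫ x, (f (fl β t x) * conj (f x) -
      f (rmul (Heis.mk 0 s 0) (fl β t x)) * conj (f (rmul (Heis.mk 0 s 0) x))) ∂haar := by
    rw [integral_sub]
    · rw [two_mul]
      nth_rw 2 [e1]
      rw [← sub_eq_add_neg]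
      rfl
    · exact integ (hfc.mul (Complex.continuous_conj.comp hf))
    · exact integ ((hf.comp (hYc.comp (continuous_fl β t))).mul
        (Complex.continuous_conj.comp (hf.comp hYc)))
  have e3 : ‖2 * rho β f t‖ ≤ 2 * ε := by
    rw [e2]
    refine (norm_integral_le_of_norm_le_const (C := 2 * ε) (Eventually.of_forall fun x => ?_)).trans ?_
    · have h1 := h s hs1 (fl β t x)
      have h2 := h s hs1 x
      have e : f (fl β t x) * conj (f x) - f (rmul (Heis.mk 0 s 0) (fl β t x)) *
          conj (f (rmul (Heis.mk 0 s 0) x)) =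
          -(f (rmul (Heis.mk 0 s 0) (fl β t x)) - f (fl β t x)) * conj (f x) +
          f (rmul (Heis.mk 0 s 0) (fl β t x)) * (-conj (f (rmul (Heis.mk 0 s 0) x) - f x)) := by
        rw [map_sub]; ring
      rw [e]
      refine (norm_add_le _ _).trans ?_
      rw [norm_mul, norm_mul, norm_neg, norm_neg, RCLike.norm_conj, RCLike.norm_conj]
      have h3 : ‖f (rmul (Heis.mk 0 s 0) (fl β t x)) - f (fl β t x)‖ * ‖f x‖ ≤ ε / (C + 1) * C :=
        mul_le_mul h1 (hC x) (norm_nonneg _) (by positivity)
      have h4 : ‖f (rmul (Heis.mk 0 s 0) (fl β t x))‖ * ‖f (rmul (Heis.mk 0 s 0) x) - f x‖ ≤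
          C * (ε / (C + 1)) := mul_le_mul (hC _) h2 (norm_nonneg _) hC0
      have h5 : ε / (C + 1) * C ≤ ε := by
        rw [div_mul_eq_mul_div, div_le_iff₀ (by positivity)]
        nlinarith
      linarith [mul_comm C (ε / (C + 1))]
    · simp
  rw [norm_mul] at e3
  have : ‖(2 : ℂ)‖ = 2 := by norm_num
  rw [this] at e3
  linarith

lemma var_ineq {ν : Measure NilM} [IsProbabilityMeasure ν] {A : NilM → ℂ} (hA : Continuous A) :
    ‖∫ x, A x ∂ν‖ ^ 2 ≤ (∫ x, A x * conj (A x) ∂ν).re := by
  set I := ∫ x, A x ∂ν with hI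
  have hAc : Continuous (fun x => conj (A x)) := Complex.continuous_conj.comp hA
  have h1 : ∫ x, (A x - I) * conj (A x - I) ∂ν = ∫ x, A x * conj (A x) ∂ν - I * conj I := by
    have e : ∀ x, (A x - I) * conj (A x - I) = A x * conj (A x) - conj I * A x - I * conj (A x)
        + I * conj I := by
      intro x; rw [map_sub]; ring
    simp only [e]
    rw [integral_add, integral_sub, integral_sub, integral_const_mul, integral_const_mul,
      integral_conj, ← hI]
    · simp
      ring
    · exact integ (hA.mul hAc)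
    · exact integ (continuous_const.mul hA)
    · exact integ ((hA.mul hAc).sub (continuous_const.mul hA))
    · exact integ (continuous_const.mul hAc)
    · exact integ (((hA.mul hAc).sub (continuous_const.mul hA)).sub (continuous_const.mul hAc))
    · exact integ continuous_const
  have h2 : 0 ≤ (∫ x, (A x - I) * conj (A x - I) ∂ν).re := by
    have e : ∀ x, (A x - I) * conj (A x - I) = ((‖A x - I‖ ^ 2 : ℝ) : ℂ) := by
      intro x
      rw [Complex.mul_conj, Complex.normSq_eq_norm_sq]
    simp only [e]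
    rw [integral_complex_ofReal, Complex.ofReal_re]
    exact integral_nonneg fun x => by positivity
  rw [h1] at h2
  have h3 : (I * conj I).re = ‖I‖ ^ 2 := by
    rw [Complex.mul_conj, Complex.normSq_eq_norm_sq, Complex.ofReal_re]
  rw [Complex.sub_re, h3] at h2
  linarith

lemma bdd {f : NilM → ℂ} (hf : Continuous f) : ∃ C, ∀ x, ‖f x‖ ≤ C := by
  obtain ⟨C, hC⟩ := isCompact_univ.exists_bound_of_continuousOn hf.continuousOn
  exact ⟨C, fun x => hC x trivial⟩

lemma corr_eq {β : ℝ} {f : NilM → ℂ} (hf : Continuous f) (s t : ℝ) :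
    ∫ x, f (fl β s x) * conj (f (fl β t x)) ∂haar = rho β f (s - t) := by
  unfold rho
  rw [← mp_integral (f := fun x => f (fl β (s - t) x) * conj (f x)) (continuous_fl β t)
    (inv_haar β t) ((hf.comp (continuous_fl β _)).mul (Complex.continuous_conj.comp hf))]
  simp only [fl_add]
  congr 1
  funext x
  rw [sub_add_cancel]

lemma rho_neg {β : ℝ} {f : NilM → ℂ} (hf : Continuous f) (t : ℝ) :
    rho β f (-t) = conj (rho β f t) := by
  have h1 : rho β f (-t) = ∫ x, f (fl β 0 x) * conj (f (fl β t x)) ∂haar := by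
    rw [corr_eq hf, zero_sub]
  rw [h1]
  unfold rho
  rw [← integral_conj]
  congr 1
  funext x
  rw [map_mul, Complex.conj_conj, mul_comm]
  congr 1
  rw [show fl β 0 x = x from nilflow_zero _ _ _ x]

lemma lemB {β : ℝ} (hβ : Irrational β) {ν : Measure NilM} [IsProbabilityMeasure ν] (hν : Inv β ν)
    {k : ℤ} (hk : k ≠ 0) {f : NilM → ℂ} (hf : Continuous f) (hm : ModeK k f) :
    ∫ x, f x ∂ν = 0 := by
  obtain ⟨C, hC⟩ := bdd hf
  have hC0 : 0 ≤ C := (norm_nonneg _).trans (hC (pr 1))
  set I := ∫ x, f x ∂ν with hI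
  by_contra hne
  have hpos : 0 < ‖I‖ ^ 2 := by positivity
  set ε := ‖I‖ ^ 2 / 4 with hε
  have hε0 : 0 < ε := by positivity
  obtain ⟨T, hT, hrho⟩ := rho_small (β := β) hk hf hm hC hε0
  obtain ⟨N, hN⟩ := exists_nat_gt (C ^ 2 / ε)
  have hN0 : (0 : ℝ) < N := lt_of_le_of_lt (by positivity) hN
  -- the average
  let A : NilM → ℂ := fun x => (N : ℂ)⁻¹ * ∑ j ∈ Finset.range N, f (fl β (j * T) x)
  have hfj : ∀ j : ℕ, Continuous (fun x => f (fl β (j * T) x)) :=
    fun j => hf.comp (continuous_fl β _)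
  have hA : Continuous A := continuous_const.mul (continuous_finsetSum _ fun j _ => hfj j)
  have hIA : ∫ x, A x ∂ν = I := by
    simp only [A]
    rw [integral_const_mul, integral_finsetSum _ fun j _ => integ (hfj j)]
    have : ∀ j ∈ Finset.range N, ∫ x, f (fl β (j * T) x) ∂ν = I := fun j _ =>
      mp_integral (continuous_fl β _) (hν _) hf
    rw [Finset.sum_congr rfl this]
    simp only [Finset.sum_const, Finset.card_range, nsmul_eq_mul]
    rw [← mul_assoc, inv_mul_cancel₀ (by exact_mod_cast hN0.ne'), one_mul]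
  have hmode : Mode0 (fun x => A x * conj (A x)) := by
    intro c x
    have h1 : A (rmul (Heis.mk 0 0 c) x) = Complex.exp (2 * Real.pi * Complex.I * (k * c)) * A x := by
      have h3 : ∀ j : ℕ, f (fl β (j * T) (rmul (Heis.mk 0 0 c) x)) =
          Complex.exp (2 * Real.pi * Complex.I * (k * c)) * f (fl β (j * T) x) := by
        intro j
        rw [← hm]
        congr 1
        unfold fl nilflow
        rw [rmul_rmul, rmul_rmul]
        congr 1
        apply Heis.ext <;> simp [expH]; ring
      simp only [A, h3]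
      rw [← Finset.mul_sum]
      ring
    show A (rmul (Heis.mk 0 0 c) x) * conj (A (rmul (Heis.mk 0 0 c) x)) = _
    rw [h1, map_mul]
    have h2 : Complex.exp (2 * Real.pi * Complex.I * (k * c)) *
        conj (Complex.exp (2 * Real.pi * Complex.I * (k * c))) = 1 := by
      rw [Complex.mul_conj, Complex.normSq_eq_norm_sq]
      have : (2 * Real.pi * Complex.I * (k * c)) = ((2 * Real.pi * (k * c) : ℝ) : ℂ) * Complex.I := by
        push_cast; ring
      rw [this, Complex.norm_exp_ofReal_mul_I]; simp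
    calc _ = (Complex.exp (2 * Real.pi * Complex.I * (k * c)) *
        conj (Complex.exp (2 * Real.pi * Complex.I * (k * c)))) * (A x * conj (A x)) := by ring
      _ = _ := by rw [h2, one_mul]
  have hg : Continuous (fun x => A x * conj (A x)) := hA.mul (Complex.continuous_conj.comp hA)
  have h1 := var_ineq (ν := ν) hA
  rw [hIA, lemA hβ hν hg hmode, ← lemA hβ (inv_haar β) hg hmode] at h1
  -- compute
  have h2 : ∫ x, A x * conj (A x) ∂haar = (N : ℂ)⁻¹ ^ 2 *
      ∑ i ∈ Finset.range N, ∑ j ∈ Finset.range N, rho β f (i * T - j * T) := by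
    have e : ∀ x, A x * conj (A x) = (N : ℂ)⁻¹ ^ 2 * ∑ i ∈ Finset.range N, ∑ j ∈ Finset.range N,
        f (fl β (i * T) x) * conj (f (fl β (j * T) x)) := by
      intro x
      simp only [A]
      rw [map_mul, map_sum, map_inv₀, Complex.conj_natCast]
      rw [mul_mul_mul_comm, Finset.sum_mul_sum]
      ring
    simp only [e]
    rw [integral_const_mul, integral_finsetSum]
    · congr 1
      refine Finset.sum_congr rfl fun i _ => ?_
      rw [integral_finsetSum]
      · exact Finset.sum_congr rfl fun j _ => corr_eq hf _ _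
      · intro j _
        exact integ ((hfj i).mul (Complex.continuous_conj.comp (hfj j)))
    · intro i _
      exact integ (continuous_finsetSum _ fun j _ =>
        (hfj i).mul (Complex.continuous_conj.comp (hfj j)))
  have h3 : ∀ i ∈ Finset.range N, ∀ j ∈ Finset.range N, ‖rho β f (i * T - j * T)‖ ≤
      ε + if i = j then C ^ 2 else 0 := by
    intro i _ j _
    rcases lt_trichotomy i j with hij | hij | hij
    · rw [if_neg hij.ne, add_zero]
      have e : ((i : ℝ) * T - j * T) = -((j - i) * T) := by ring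
      rw [e, rho_neg hf, RCLike.norm_conj]
      apply hrho
      have : (1 : ℝ) ≤ j - i := by
        have : (i : ℝ) + 1 ≤ j := by exact_mod_cast hij
        linarith
      nlinarith
    · subst hij
      rw [if_pos rfl, sub_self]
      have : ‖rho β f 0‖ ≤ C ^ 2 := by
        unfold rho
        refine (norm_integral_le_of_norm_le_const (C := C ^ 2)
          (Eventually.of_forall fun x => ?_)).trans ?_
        · rw [norm_mul, RCLike.norm_conj, sq]
          exact mul_le_mul (hC _) (hC _) (norm_nonneg _) hC0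
        · simp
      linarith
    · rw [if_neg hij.ne', add_zero]
      have e : ((i : ℝ) * T - j * T) = ((i - j) * T) := by ring
      rw [e]
      apply hrho
      have : (1 : ℝ) ≤ i - j := by
        have : (j : ℝ) + 1 ≤ i := by exact_mod_cast hij
        linarith
      nlinarith
  have h4 : (∫ x, A x * conj (A x) ∂haar).re ≤ ε + C ^ 2 / N := by
    refine (Complex.re_le_norm _).trans ?_
    rw [h2, norm_mul, norm_pow, norm_inv, Complex.norm_natCast]
    have h5 : ‖∑ i ∈ Finset.range N, ∑ j ∈ Finset.range N, rho β f (i * T - j * T)‖ ≤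
        N * (N * ε + C ^ 2) := by
      refine (norm_sum_le _ _).trans ?_
      have : ∀ i ∈ Finset.range N, ‖∑ j ∈ Finset.range N, rho β f (i * T - j * T)‖ ≤
          N * ε + C ^ 2 := by
        intro i hi
        refine (norm_sum_le _ _).trans ?_
        refine (Finset.sum_le_sum (h3 i hi)).trans ?_
        rw [Finset.sum_add_distrib, Finset.sum_ite_eq, if_pos hi]
        simp
      refine (Finset.sum_le_sum this).trans ?_
      rw [Finset.sum_const, Finset.card_range, nsmul_eq_mul]
    calc ((N : ℝ)⁻¹) ^ 2 * ‖∑ i ∈ Finset.range N, ∑ j ∈ Finset.range N, rho β f (i * T - j * T)‖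
        ≤ ((N : ℝ)⁻¹) ^ 2 * (N * (N * ε + C ^ 2)) := by gcongr
      _ = ε + C ^ 2 / N := by field_simp
  have h6 : C ^ 2 / N < ε := by
    rw [div_lt_iff₀ hN0]
    rw [div_lt_iff₀ hε0] at hN
    linarith
  have h7 : ‖I‖ ^ 2 < 2 * ε := by linarith
  rw [hε] at h7
  linarith

end Pool.Agent.U610.Nil
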