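import Pool.Agent.U610.Nil.UE2

/-!
Unique ergodicity of the Heisenberg nilflows with irrational slope: conclusion.
-/

open Set Topology Filter MeasureTheory
open Pool.Agent.R239.NilRet
open Pool.Agent.R239.NilRet.Heis
open scoped ComplexConjugate

namespace Pool.Agent.U610.Nil

/-- A continuous function of period one all of whose Fourier coefficients but the one of index zero
vanish is constant. -/
lemma const_of_fourier {h : ℝ → ℂ} (hc : Continuous h) (hp : ∀ c, h (c + 1) = h c)
    (hk : ∀ k : ℤ, k ≠ 0 → ∫ c in (0 : ℝ)..1, h c * Complex.exp (2 * Real.pi * Complex.I * (-k * c)) = 0)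
    (c : ℝ) : h c = ∫ c in (0 : ℝ)..1, h c := by
  have : Fact (0 < (1 : ℝ)) := ⟨one_pos⟩
  have hper : Function.Periodic h 1 := hp
  have hlc : Continuous (hper.lift : AddCircle (1 : ℝ) → ℂ) :=
    continuous_coinduced_dom.mpr hc
  let F : C(AddCircle (1 : ℝ), ℂ) := ⟨hper.lift, hlc⟩
  have hF : ∀ x : ℝ, F (x : AddCircle (1 : ℝ)) = h x := fun x => hper.lift_coe x
  have hco : ∀ k : ℤ, k ≠ 0 → fourierCoeff F k = 0 := by
    intro k hk0
    rw [fourierCoeff_eq_intervalIntegral F k 0]
    simp only [fourier_coe_apply, hF, smul_eq_mul, zero_add, one_div, inv_one, one_smul]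
    rw [← hk k hk0]
    refine intervalIntegral.integral_congr fun x _ => ?_
    rw [mul_comm]
    congr 2
    push_cast
    ring
  have hc0 : fourierCoeff F 0 = ∫ c in (0 : ℝ)..1, h c := by
    rw [fourierCoeff_eq_intervalIntegral F 0 0]
    simp only [hF, smul_eq_mul, zero_add, one_div, inv_one, one_smul]
    simp
  have hs : Summable (fourierCoeff F) := by
    refine summable_of_ne_finset_zero (s := {0}) fun k hk0 => hco k ?_
    simpa using hk0
  have h1 := has_pointwise_sum_fourier_series_of_summable hs (c : AddCircle (1 : ℝ))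
  have h2 : HasSum (fun i : ℤ => fourierCoeff F i • fourier i (c : AddCircle (1 : ℝ)))
      (fourierCoeff F 0 • fourier 0 (c : AddCircle (1 : ℝ))) := by
    refine hasSum_single 0 fun k hk0 => ?_
    rw [hco k hk0, zero_smul]
  have h3 := h1.unique h2
  rw [hF, hc0] at h3
  rw [h3]
  simp

lemma rmul_one_z (c : ℝ) (x : NilM) : rmul (Heis.mk 0 0 (c + 1)) x = rmul (Heis.mk 0 0 c) x := by
  obtain ⟨g, rfl⟩ := pr_surjective x
  rw [rmul_pr, rmul_pr, ← pr_mul (mk_mem_Gam2 0 0 1) (g * Heis.mk 0 0 c)]
  congr 1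
  apply Heis.ext <;> simp; ring

lemma rmul_z_z (c d : ℝ) (x : NilM) :
    rmul (Heis.mk 0 0 c) (rmul (Heis.mk 0 0 d) x) = rmul (Heis.mk 0 0 (c + d)) x := by
  rw [rmul_rmul]
  congr 1
  apply Heis.ext <;> simp; ring

lemma continuous_z {f : NilM → ℂ} (hf : Continuous f) :
    Continuous (fun p : NilM × ℝ => f (rmul (Heis.mk 0 0 p.2) p.1)) := by
  have h2 : Continuous (fun p : NilM × ℝ => ((Heis.mk 0 0 p.2, p.1) : Heis × NilM)) :=
    (continuous_mk continuous_const continuous_const continuous_snd).prodMk continuous_fst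
  exact hf.comp (continuous_rmul_joint.comp h2)

/-- the component of central weight `k` of `f` -/
noncomputable def comp (f : NilM → ℂ) (k : ℤ) (x : NilM) : ℂ :=
  ∫ c in (0 : ℝ)..1, f (rmul (Heis.mk 0 0 c) x) * Complex.exp (2 * Real.pi * Complex.I * (-k * c))

lemma continuous_ker {f : NilM → ℂ} (hf : Continuous f) (k : ℤ) :
    Continuous (fun p : NilM × ℝ => f (rmul (Heis.mk 0 0 p.2) p.1) *
      Complex.exp (2 * Real.pi * Complex.I * (-k * p.2))) :=
  (continuous_z hf).mul (by fun_prop)

lemma continuous_comp' {f : NilM → ℂ} (hf : Continuous f) (k : ℤ) : Continuous (comp f k) :=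
  intervalIntegral.continuous_parametric_intervalIntegral_of_continuous' (continuous_ker hf k) 0 1

lemma modeK_comp {f : NilM → ℂ} (k : ℤ) : ModeK k (comp f k) := by
  intro d x
  unfold comp
  have h1 : ∀ c : ℝ, f (rmul (Heis.mk 0 0 c) (rmul (Heis.mk 0 0 d) x)) *
      Complex.exp (2 * Real.pi * Complex.I * (-k * c)) =
      Complex.exp (2 * Real.pi * Complex.I * (k * d)) *
      ((fun c : ℝ => f (rmul (Heis.mk 0 0 c) x) * Complex.exp (2 * Real.pi * Complex.I * (-k * c)))
        (c + d)) := by
    intro c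
    rw [rmul_z_z]
    dsimp only
    have e : Complex.exp (2 * Real.pi * Complex.I * (-k * c)) =
        Complex.exp (2 * Real.pi * Complex.I * (k * d)) *
        Complex.exp (2 * Real.pi * Complex.I * (-k * ((c + d : ℝ) : ℂ))) := by
      rw [← Complex.exp_add]
      congr 1
      push_cast
      ring
    rw [e]
    ring
  simp only [h1]
  rw [intervalIntegral.integral_const_mul]
  congr 1
  rw [intervalIntegral.integral_comp_add_right (fun c : ℝ => f (rmul (Heis.mk 0 0 c) x) *
    Complex.exp (2 * Real.pi * Complex.I * (-k * c))) d]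
  have hp : Function.Periodic (fun c : ℝ => f (rmul (Heis.mk 0 0 c) x) *
    Complex.exp (2 * Real.pi * Complex.I * (-k * c))) 1 := by
    intro c
    simp only
    rw [rmul_one_z]
    congr 1
    rw [Complex.exp_eq_exp_iff_exists_int]
    refine ⟨-k, ?_⟩
    push_cast
    ring
  have := hp.intervalIntegral_add_eq d 0
  rw [zero_add, add_comm d 1] at this
  rw [zero_add]
  exact this

lemma mode0_comp {f : NilM → ℂ} : Mode0 (comp f 0) := by
  intro c x
  have := modeK_comp (f := f) 0 c x
  rw [this]
  simp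

lemma integral_comp_eq {ν : Measure NilM} [IsProbabilityMeasure ν] {f : NilM → ℂ} (hf : Continuous f)
    (k : ℤ) : ∫ x, comp f k x ∂ν = ∫ c in (0 : ℝ)..1, (∫ x, f (rmul (Heis.mk 0 0 c) x) ∂ν) *
      Complex.exp (2 * Real.pi * Complex.I * (-k * c)) := by
  unfold comp
  rw [swap (fun x c => f (rmul (Heis.mk 0 0 c) x) *
    Complex.exp (2 * Real.pi * Complex.I * (-k * c))) (continuous_ker hf k)]
  refine intervalIntegral.integral_congr fun c _ => ?_
  rw [integral_mul_const]

lemma lemC {β : ℝ} (hβ : Irrational β) {ν : Measure NilM} [IsProbabilityMeasure ν] (hν : Inv β ν)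
    {f : NilM → ℂ} (hf : Continuous f) : ∫ x, f x ∂ν = sqI (comp f 0) := by
  set h : ℝ → ℂ := fun c => ∫ x, f (rmul (Heis.mk 0 0 c) x) ∂ν with hh
  have hc : Continuous h := by
    have := continuous_parametric_integral_of_continuous (μ := ν)
      (f := fun (c : ℝ) (x : NilM) => f (rmul (Heis.mk 0 0 c) x))
      ((continuous_z hf).comp continuous_swap) isCompact_univ
    simpa only [Measure.restrict_univ] using this
  have hp : ∀ c, h (c + 1) = h c := by
    intro c
    simp only [hh, rmul_one_z]
  have hk : ∀ k : ℤ, k ≠ 0 → ∫ c in (0 : ℝ)..1, h c *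
      Complex.exp (2 * Real.pi * Complex.I * (-k * c)) = 0 := by
    intro k hk0
    rw [← integral_comp_eq hf k]
    exact lemB hβ hν hk0 (continuous_comp' hf k) (modeK_comp k)
  have h1 := const_of_fourier hc hp hk 0
  have h2 : h 0 = ∫ x, f x ∂ν := by
    simp only [hh]
    congr 1
    funext x
    rw [show Heis.mk 0 0 0 = 1 from rfl, rmul_one]
  rw [← h2, h1, ← lemA hβ hν (continuous_comp' hf 0) mode0_comp, integral_comp_eq hf 0]
  refine intervalIntegral.integral_congr fun c _ => ?_
  simp [hh]

/-- **Unique ergodicity** of the Heisenberg nilflow of irrational slope. -/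
theorem uniqueErgodic {β : ℝ} (hβ : Irrational β) (ν : Measure NilM) [IsProbabilityMeasure ν]
    (hν : Inv β ν) : ν = haar := by
  have : TopologicalSpace.MetrizableSpace NilM := TopologicalSpace.metrizableSpace_of_t3_secondCountable _
  let _ : MetricSpace NilM := TopologicalSpace.metrizableSpaceMetric NilM
  refine ext_of_forall_integral_eq_of_IsFiniteMeasure fun f => ?_
  have hfc : Continuous (fun x => (f x : ℂ)) := Complex.continuous_ofReal.comp f.continuous
  have h1 := lemC hβ hν hfc
  have h2 := lemC hβ (inv_haar β) hfc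
  rw [← h2, integral_complex_ofReal, integral_complex_ofReal] at h1
  exact_mod_cast h1

end Pool.Agent.U610.Nil
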